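import Pool.Agent.L7h78.RP.Ks
import Pool.Agent.L7h19.RP.Stm3

/-! # StEp: twisted sums over divisors, with one exceptional modulus -/

set_option autoImplicit false
set_option linter.unusedSectionVars false

open NumberField Finset Polynomial

namespace Pool.Agent.L7h78.RP

open Pool.Agent.W262.RK Pool.Agent.W655.RK Pool.Agent.L7h19.RP
open Pool.Agent.H474R2.PG (rho)
open Pool.Agent.L7h19.RP.AT (gm hq)

/-- `∑_ν (κ(ν) / p)` -/
noncomputable def bb (f κ : ℤ[X]) (p : ℕ) : ℝ :=
  ∑ ν ∈ (range p).filter (fun ν : ℕ => (p : ℤ) ∣ f.eval (ν : ℤ)), Jr (κ.eval (ν : ℤ)) p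

lemma bb_abs (f κ : ℤ[X]) (p : ℕ) : |bb f κ p| ≤ rho f p := by
  unfold bb rho
  refine (Finset.abs_sum_le_sum_abs _ _).trans ?_
  calc _ ≤ ∑ _ν ∈ (range p).filter (fun ν : ℕ => (p : ℤ) ∣ f.eval (ν : ℤ)), (1 : ℝ) :=
        Finset.sum_le_sum fun ν _ => Jr_abs _ _
    _ = _ := by simp

/-- the sums of the twisted `b` over the primes -/
lemma bb_sum (hQ : StQuad) (f κ : ℤ[X]) (hf : Irreducible f) (hd : 0 < f.natDegree)
    (hfκ : ¬ f ∣ κ) : ∃ (n : ℕ) (D : ℝ) (z₀ : ℕ), 0 ≤ D ∧ 2 ≤ z₀ ∧
    (∀ p : ℕ, p.Prime → z₀ < p → |bb f κ p| ≤ n) ∧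
    ∀ z : ℕ, z₀ ≤ z → ∃ (C : ℝ) (rx : Bool → ℕ → ℕ), ∀ (t : Bool) (r y : ℕ), Md z r → z < y →
      r ≠ rx t y →
      ∑ p ∈ PS z y, bb f κ p * ch t r p / (p : ℝ) ≤
        D * Real.log (Real.log r) + 1 / 2 * Real.log (Real.log y) + C := by
  classical
  obtain ⟨K, iF, iN, z₁, hKr, hcase⟩ := hQ f κ hf hd hfκ
  have hn : ∀ p : ℕ, p.Prime → z₁ < p → |bb f κ p| ≤ (Module.finrank ℚ K : ℕ) := by
    intro p hp hzp
    refine (bb_abs f κ p).trans ?_
    rw [← hKr p hp hzp]
    exact hK_le K hp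
  rcases hcase with hsq | ⟨K', iF', iN', hK'⟩
  · -- the square case
    obtain ⟨A, z₂, hA, hz₂, h⟩ := upper K
    refine ⟨Module.finrank ℚ K, A, max z₁ z₂, hA, hz₂.trans (le_max_right _ _),
      fun p hp hzp => hn p hp ((le_max_left _ _).trans_lt hzp), fun z hz => ?_⟩
    obtain ⟨C, hC⟩ := h z ((le_max_right _ _).trans hz)
    refine ⟨C, fun _ _ => 0, fun t r y hr hzy _ => ?_⟩
    have h1 := hC t r y hr hzy
    have hz2 := hz₂.trans ((le_max_right _ _).trans hz)
    obtain ⟨-, ly⟩ := logs (r := y) (by omega)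
    have h2 : ∑ p ∈ PS z y, bb f κ p * ch t r p / (p : ℝ) =
        ∑ p ∈ PS z y, hK K p * ch t r p / (p : ℝ) := by
      refine Finset.sum_congr rfl fun p hp => ?_
      have hpp := PS_prime hp
      have hzp : z₁ < p := lt_of_le_of_lt ((le_max_left _ _).trans hz) (PS_lt hp)
      have h3 : bb f κ p = hK K p := by
        unfold bb hK
        rw [hKr p hpp hzp]
        unfold rho
        rw [Finset.sum_congr rfl (g := fun _ => (1 : ℝ))]
        · simp
        · intro ν hν
          rw [mem_filter] at hν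
          unfold Jr
          rw [hsq p hpp hzp ν hν.2, Int.cast_one]
      rw [h3]
    rw [h2]
    linarith
  · -- the quadratic extension
    obtain ⟨A, z₂, hA, hz₂, h⟩ := upper K'
    obtain ⟨D, z₃, hD, hz₃, hrep⟩ := repulsion K
    refine ⟨Module.finrank ℚ K, A + D, max z₁ (max z₂ z₃), by positivity,
      hz₂.trans ((le_max_left _ _).trans (le_max_right _ _)),
      fun p hp hzp => hn p hp ((le_max_left _ _).trans_lt hzp), fun z hz => ?_⟩
    have hz1 : z₁ ≤ z := (le_max_left _ _).trans hz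
    have hz2 : z₂ ≤ z := ((le_max_left _ _).trans (le_max_right _ _)).trans hz
    have hz3 : z₃ ≤ z := ((le_max_right _ _).trans (le_max_right _ _)).trans hz
    obtain ⟨C1, hC1⟩ := h z hz2
    obtain ⟨C2, hC2, hrep'⟩ := hrep z hz3
    let Bad : Bool → ℕ → ℕ → Prop := fun t y r => Md z r ∧
      ∑ p ∈ PS z y, hK K p * ch t r p / (p : ℝ) <
        -(1 / 2 * Real.log (Real.log y)) - D * Real.log (Real.log r) - C2
    refine ⟨C1 + C2, fun t y => if h : ∃ r, Bad t y r then h.choose else 0,
      fun t r y hr hzy hrx => ?_⟩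
    have hnot : ¬ Bad t y r := by
      intro hb
      have hex : ∃ r, Bad t y r := ⟨r, hb⟩
      have hrx' : r ≠ hex.choose := by
        intro he
        apply hrx
        show r = if h : ∃ r, Bad t y r then h.choose else 0
        rw [dif_pos hex]
        exact he
      have hb' := hex.choose_spec
      have h1 := hrep' t r hex.choose y hb.1 hb'.1 hrx' hzy
      have h2 := hb.2
      have h3 := hb'.2
      linarith
    have h1 := hC1 t r y hr hzy
    have h2 : -(1 / 2 * Real.log (Real.log y)) - D * Real.log (Real.log r) - C2 ≤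
        ∑ p ∈ PS z y, hK K p * ch t r p / (p : ℝ) := by
      by_contra hlt
      exact hnot ⟨hr, not_le.1 hlt⟩
    have h3 : ∑ p ∈ PS z y, bb f κ p * ch t r p / (p : ℝ) =
        ∑ p ∈ PS z y, hK K' p * ch t r p / (p : ℝ) -
          ∑ p ∈ PS z y, hK K p * ch t r p / (p : ℝ) := by
      rw [← Finset.sum_sub_distrib]
      refine Finset.sum_congr rfl fun p hp => ?_
      have hpp := PS_prime hp
      have hzp : z₁ < p := lt_of_le_of_lt hz1 (PS_lt hp)
      have h4 : bb f κ p = hK K' p - hK K p := by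
        have h5 := hK' p hpp hzp
        have h6 : (Nat.card (𝓞 K' →+* ZMod p) : ℝ) = ((Nat.card (𝓞 K' →+* ZMod p) : ℤ) : ℝ) := by
          push_cast
          rfl
        unfold hK
        rw [h6, h5, hKr p hpp hzp]
        unfold bb rho Jr
        push_cast
        rw [Finset.sum_add_distrib]
        simp
      rw [h4]
      ring
    rw [h3]
    linarith

theorem stEp (hQ : StQuad) : StEp := by
  intro f κ w c hf hd hfκ hw hw2
  obtain ⟨K, hK, hsq⟩ := sum_inv_sq
  obtain ⟨n, D, z₀, hD, hz₀, hbn, hbb⟩ := bb_sum hQ f κ hf hd hfκ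
  refine ⟨max (2 * c + 2 + n) z₀, n, ⌈w * D⌉₊, fun z B hz hB => ?_⟩
  have hzc : 2 * c + 2 + n ≤ z := (le_max_left _ _).trans hz
  have hz0 : z₀ ≤ z := (le_max_right _ _).trans hz
  have hz2 : 2 ≤ z := by omega
  obtain ⟨C, rx, hC⟩ := hbb z hz0
  refine ⟨Real.exp (w * C + c * n * K), rx, fun y R r t hy hR hr hrs hrp hrx => ?_⟩
  classical
  have hM : Md z r := ⟨hr, hrs, hrp⟩
  obtain ⟨hl1, hl2⟩ := logs (hM.three hz2)
  have hlr : 0 < Real.log r := by linarith
  obtain ⟨hy1, hy2⟩ := logs (r := y) (by omega)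
  have hly : 0 < Real.log y := by linarith
  set S' := (PS z y).filter (fun p => ¬ p ∣ R) with hS'
  have hS'p : ∀ p ∈ S', p.Prime := fun p hp => PS_prime (mem_filter.1 hp).1
  have hset : (PP z y).divisors.filter (fun d => d.Coprime R) = (∏ p ∈ S', p).divisors := by
    have hsq1 := prod_primes_squarefree (PS z y) fun p hp => PS_prime hp
    have hsq2 := prod_primes_squarefree S' hS'p
    ext d
    rw [mem_filter, Nat.mem_divisors, Nat.mem_divisors]
    constructor
    · rintro ⟨⟨hd, -⟩, hc⟩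
      refine ⟨?_, hsq2.ne_zero⟩
      have hsd : Squarefree d := hsq1.squarefree_of_dvd hd
      rw [← Nat.prod_primeFactors_of_squarefree hsd]
      refine Finset.prod_dvd_prod_of_subset _ _ _ fun p hp => ?_
      have hpp := Nat.prime_of_mem_primeFactors hp
      have hpd := Nat.dvd_of_mem_primeFactors hp
      have h1 : p ∈ PS z y := by
        rw [← Nat.primeFactors_prod (s := PS z y) fun p hp => PS_prime hp]
        exact Nat.primeFactors_mono hd hsq1.ne_zero hp
      refine mem_filter.2 ⟨h1, fun hpR => ?_⟩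
      have := Nat.dvd_gcd hpd hpR
      rw [hc.gcd_eq_one] at this
      exact hpp.one_lt.ne' (Nat.dvd_one.1 this)
    · rintro ⟨hd, -⟩
      refine ⟨⟨hd.trans (Finset.prod_dvd_prod_of_subset _ _ _ (filter_subset _ _)),
        hsq1.ne_zero⟩, ?_⟩
      refine Nat.Coprime.coprime_dvd_left hd ?_
      exact Nat.Coprime.prod_left fun p hp =>
        ((hS'p p hp).coprime_iff_not_dvd).2 (mem_filter.1 hp).2
  have hch : ∀ d : ℕ, ch t r d = chr 1 r t d := by
    intro d
    unfold ch chr
    have : Jr 1 d = 1 := by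
      unfold Jr
      rw [jacobiSym.one_left, Int.cast_one]
    rw [this, mul_one]
  set φ : ℕ → ℝ := fun p => bw f κ w c p * ch t r p with hφ
  have hsum : ∑ d ∈ (PP z y).divisors.filter (fun d => d.Coprime R),
      gm (bw f κ w c) d * (Jr d r * x4 t d) = ∏ p ∈ S', (1 + φ p) := by
    rw [hset, ← sum_mult S' hS'p φ]
    refine Finset.sum_congr rfl fun d hd => ?_
    have hsd : Squarefree d :=
      (prod_primes_squarefree S' hS'p).squarefree_of_dvd (Nat.dvd_of_mem_divisors hd)
    show gm (bw f κ w c) d * ch t r d = _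
    have h1 : ch t r d = ∏ p ∈ d.primeFactors, ch t r p := by
      rw [hch]
      simp_rw [hch]
      rw [← chr_prod 1 r t _ fun p hp => Nat.prime_of_mem_primeFactors hp,
        Nat.prod_primeFactors_of_squarefree hsd]
    rw [h1, gm, ← Finset.prod_mul_distrib]
  rw [hsum]
  have hp3 : ∀ p ∈ PS z y, (2 * c + 3 + n : ℝ) ≤ p := fun p hp => by
    have := PS_lt hp
    exact_mod_cast (by omega : 2 * c + 3 + n ≤ p)
  have hc0 : (0:ℝ) ≤ c := Nat.cast_nonneg c
  have hn0 : (0:ℝ) ≤ n := Nat.cast_nonneg n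
  have hb : ∀ p ∈ PS z y, |bb f κ p| ≤ n := fun p hp =>
    hbn p (PS_prime hp) (lt_of_le_of_lt hz0 (PS_lt hp))
  have hbc : ∀ p ∈ PS z y, |bb f κ p * ch t r p| ≤ n := fun p hp => by
    rw [abs_mul]
    calc _ ≤ (n : ℝ) * 1 := mul_le_mul (hb p hp) (ch_abs t r p) (abs_nonneg _) hn0
      _ = n := mul_one _
  have hφe : ∀ p, φ p = w / ((p : ℝ) - c) * (bb f κ p * ch t r p) := by
    intro p
    rw [hφ]
    simp only
    unfold bw bb
    ring
  have hfac : ∀ p ∈ S', 0 ≤ 1 + φ p := by
    intro p hp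
    have hp' := (mem_filter.1 hp).1
    have h1 := hp3 p hp'
    have h2 : 0 < (p : ℝ) - c := by linarith
    have h4 := (abs_le.1 (hbc p hp')).1
    rw [hφe, div_mul_eq_mul_div]
    have h5 : -((p : ℝ) - c) ≤ w * (bb f κ p * ch t r p) := by nlinarith
    have h6 : -1 ≤ w * (bb f κ p * ch t r p) / ((p : ℝ) - c) := by
      rw [le_div_iff₀ h2]
      linarith
    linarith
  rw [abs_of_nonneg (Finset.prod_nonneg hfac)]
  refine (prod_le_exp S' φ hfac).trans ?_
  -- the exponent
  have hterm : ∀ p ∈ S', φ p ≤ w * (bb f κ p * ch t r p / p) + c * n * (1 / (p : ℝ) ^ 2) := by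
    intro p hp
    have hp' := (mem_filter.1 hp).1
    have h1 := hp3 p hp'
    have h2 : 0 < (p : ℝ) - c := by linarith
    have hp0 : (0:ℝ) < p := by linarith
    have h4 := (abs_le.1 (hbc p hp')).2
    have h5 : w / ((p : ℝ) - c) * (bb f κ p * ch t r p) =
        w * (bb f κ p * ch t r p / p) +
          (w * c / (p * (p - c))) * (bb f κ p * ch t r p) := by
      field_simp
      ring
    rw [hφe, h5]
    have h6 : 0 ≤ w * c / (p * (p - c)) := by positivity
    have h7 : w * c / (p * (p - c)) ≤ c * (1 / (p : ℝ) ^ 2) := by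
      rw [mul_one_div, div_le_div_iff₀ (by positivity) (by positivity)]
      have h8 : w * p ≤ p - c := by nlinarith
      have h9 : 0 ≤ (c : ℝ) * p := by positivity
      nlinarith
    have h10 : (w * c / (p * (p - c))) * (bb f κ p * ch t r p) ≤
        (w * c / (p * (p - c))) * n := mul_le_mul_of_nonneg_left h4 h6
    have h11 : (w * c / (p * (p - c))) * n ≤ (c * (1 / (p : ℝ) ^ 2)) * n :=
      mul_le_mul_of_nonneg_right h7 hn0
    linarith
  have hexp : ∑ p ∈ S', φ p ≤ w * (D * Real.log (Real.log r) + 1 / 2 * Real.log (Real.log y) + C) +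
      c * n * K + ∑ p ∈ (PS z y).filter (fun p => p ∣ R), w * n / p := by
    have hub := hC t r y hM hy hrx
    have hsplit := Finset.sum_filter_add_sum_filter_not (PS z y) (fun p => p ∣ R)
      (fun p => bb f κ p * ch t r p / (p : ℝ))
    have h1 : ∑ p ∈ S', bb f κ p * ch t r p / (p : ℝ) ≤
        (D * Real.log (Real.log r) + 1 / 2 * Real.log (Real.log y) + C) +
        ∑ p ∈ (PS z y).filter (fun p => p ∣ R), (n : ℝ) / (p : ℝ) := by
      have h2 : -∑ p ∈ (PS z y).filter (fun p => p ∣ R), (n : ℝ) / (p : ℝ) ≤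
          ∑ p ∈ (PS z y).filter (fun p => p ∣ R), bb f κ p * ch t r p / (p : ℝ) := by
        rw [← Finset.sum_neg_distrib]
        refine Finset.sum_le_sum fun p hp => ?_
        rw [← neg_div]
        exact div_le_div_of_nonneg_right (abs_le.1 (hbc p (mem_filter.1 hp).1)).1
          (Nat.cast_nonneg p)
      linarith
    calc ∑ p ∈ S', φ p ≤ ∑ p ∈ S', (w * (bb f κ p * ch t r p / p) +
          c * n * (1 / (p : ℝ) ^ 2)) := Finset.sum_le_sum hterm
      _ = w * ∑ p ∈ S', bb f κ p * ch t r p / p + c * n * ∑ p ∈ S', 1 / (p : ℝ) ^ 2 := by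
          rw [Finset.sum_add_distrib, Finset.mul_sum, Finset.mul_sum]
      _ ≤ w * ((D * Real.log (Real.log r) + 1 / 2 * Real.log (Real.log y) + C) +
            ∑ p ∈ (PS z y).filter (fun p => p ∣ R), (n : ℝ) / (p : ℝ)) + c * n * K :=
          add_le_add (mul_le_mul_of_nonneg_left h1 hw.le)
            (mul_le_mul_of_nonneg_left (hsq _) (by positivity))
      _ = _ := by
          rw [mul_add, Finset.mul_sum]
          simp only [← mul_div_assoc]
          ring
  have hhh : Real.exp (∑ p ∈ (PS z y).filter (fun p => p ∣ R), w * n / p) ≤ hq B R := by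
    rw [Real.exp_sum]
    unfold hq
    have hsub : (PS z y).filter (fun p => p ∣ R) ⊆ R.primeFactors := by
      intro p hp
      rw [mem_filter] at hp
      exact Nat.mem_primeFactors.2 ⟨PS_prime hp.1, hp.2, hR⟩
    have hBn : (n : ℝ) ≤ B := by exact_mod_cast hB
    calc ∏ p ∈ (PS z y).filter (fun p => p ∣ R), Real.exp (w * n / p)
        ≤ ∏ p ∈ (PS z y).filter (fun p => p ∣ R), (1 + (B : ℝ) / (p : ℝ)) := by
          refine Finset.prod_le_prod (fun p _ => (Real.exp_pos _).le) fun p hp => ?_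
          have h1 := hp3 p (mem_filter.1 hp).1
          have hp0 : (0:ℝ) < p := by linarith
          have h2 : w * n / (p : ℝ) ≤ 1 / 2 := by
            rw [div_le_iff₀ hp0]
            nlinarith
          refine (exp_small _ (by positivity) h2).trans ?_
          have h3 : 2 * (w * n / (p : ℝ)) ≤ B / p := by
            rw [← mul_div_assoc]
            refine div_le_div_of_nonneg_right ?_ hp0.le
            nlinarith
          linarith
      _ ≤ ∏ p ∈ R.primeFactors, (1 + (B : ℝ) / (p : ℝ)) := by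
          refine Finset.prod_le_prod_of_subset_of_one_le hsub (fun p _ => by positivity)
            fun p _ _ => ?_
          have : (0:ℝ) ≤ (B : ℝ) / (p : ℝ) := by positivity
          linarith
  have hpow : (Real.log r) ^ (w * D) ≤ (Real.log r) ^ ⌈w * D⌉₊ := by
    rw [← Real.rpow_natCast]
    exact Real.rpow_le_rpow_of_exponent_le hl1 (Nat.le_ceil _)
  calc Real.exp (∑ p ∈ S', φ p) ≤ Real.exp (w * (D * Real.log (Real.log r) +
        1 / 2 * Real.log (Real.log y) + C) + c * n * K +
        ∑ p ∈ (PS z y).filter (fun p => p ∣ R), w * n / p) := Real.exp_le_exp.2 hexp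
    _ = Real.exp (w * C + c * n * K) * (Real.log r) ^ (w * D) * (Real.log y) ^ (w / 2) *
        Real.exp (∑ p ∈ (PS z y).filter (fun p => p ∣ R), w * n / p) := by
        rw [Real.rpow_def_of_pos hlr, Real.rpow_def_of_pos hly, ← Real.exp_add, ← Real.exp_add,
          ← Real.exp_add]
        congr 1
        ring
    _ ≤ _ := by
        refine mul_le_mul ?_ hhh (Real.exp_pos _).le (by positivity)
        refine mul_le_mul_of_nonneg_right ?_ (by positivity)
        exact mul_le_mul_of_nonneg_left hpow (Real.exp_pos _).le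

end Pool.Agent.L7h78.RP
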