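import Pool.Agent.Y773.HG.Ent
import Pool.Agent.H921R2.TatePole.Homs

/-! # A uniform bound for the L-functions of ray class characters near `s = 1` -/

set_option autoImplicit false
set_option linter.unusedSectionVars false

open NumberField Complex Filter Topology Set MeasureTheory

namespace Pool.Agent.Y773.G.R78

open Pool.Agent.H921R2.TatePole (ZK sum_ideals_le ZK_tendsto ZK_summable aK aK_nonneg)

/-! ## gamma factors -/

lemma norm_Gamma_le {z : ℂ} (hz : 0 < z.re) : ‖Complex.Gamma z‖ ≤ Real.Gamma z.re := by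
  rw [Complex.Gamma_eq_integral hz, Complex.GammaIntegral, Real.Gamma_eq_integral hz]
  refine (norm_integral_le_integral_norm _).trans_eq ?_
  apply setIntegral_congr_fun measurableSet_Ioi
  intro x hx
  have hx : 0 < x := hx
  simp only [norm_mul, Complex.norm_real, Real.norm_of_nonneg (Real.exp_pos _).le]
  rw [Complex.norm_cpow_eq_rpow_re_of_pos hx]
  simp

lemma gam_upper : ∃ C : ℝ, 0 < C ∧ ∀ s : ℂ, 1 ≤ s.re → s.re ≤ 3 → ‖Complex.Gammaℝ s‖ ≤ C := by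
  have hc : ContinuousOn Real.Gamma (Icc (1 / 2) (3 / 2)) := by
    intro x hx
    refine (Real.differentiableAt_Gamma (fun m h => ?_)).continuousAt.continuousWithinAt
    have h1 := hx.1
    rw [h] at h1
    have : (0 : ℝ) ≤ m := Nat.cast_nonneg m
    linarith
  obtain ⟨C, hC⟩ := isCompact_Icc.exists_bound_of_continuousOn hc
  refine ⟨max C 1, lt_max_of_lt_right one_pos, fun s h1 h2 => ?_⟩
  rw [Complex.Gammaℝ_def, norm_mul]
  have h3 : ‖(Real.pi : ℂ) ^ (-s / 2)‖ ≤ 1 := by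
    rw [Complex.norm_cpow_eq_rpow_re_of_pos Real.pi_pos]
    refine Real.rpow_le_one_of_one_le_of_nonpos (by linarith [Real.pi_gt_three]) ?_
    have : (-s / 2).re = -s.re / 2 := by simp
    rw [this]
    linarith
  have hre : (s / 2).re = s.re / 2 := by simp
  have h4 : ‖Complex.Gamma (s / 2)‖ ≤ max C 1 := by
    have h5 := norm_Gamma_le (z := s / 2) (by rw [hre]; linarith)
    have h6 := hC (s / 2).re ⟨by rw [hre]; linarith, by rw [hre]; linarith⟩
    exact h5.trans ((le_abs_self _).trans (h6.trans (le_max_left _ _)))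
  calc _ ≤ 1 * max C 1 := mul_le_mul h3 h4 (norm_nonneg _) zero_le_one
    _ = _ := one_mul _

lemma gam_lower : ∃ c : ℝ, 0 < c ∧ ∀ x : ℝ, 1 ≤ x → x ≤ 3 → c ≤ ‖Complex.Gammaℝ (x : ℂ)‖ := by
  have hc : ContinuousOn (fun x : ℝ => (Complex.Gammaℝ (x : ℂ))⁻¹) (Icc 1 3) :=
    (Complex.differentiable_Gammaℝ_inv.continuous.comp continuous_ofReal).continuousOn
  obtain ⟨C, hC⟩ := isCompact_Icc.exists_bound_of_continuousOn hc
  refine ⟨(max C 1)⁻¹, by positivity, fun x h1 h2 => ?_⟩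
  have h3 := hC x ⟨h1, h2⟩
  rw [norm_inv] at h3
  have h4 : 0 < ‖Complex.Gammaℝ (x : ℂ)‖ := norm_pos_iff.mpr
    (Complex.Gammaℝ_ne_zero_of_re_pos (by simpa using by linarith))
  rw [inv_le_comm₀ (by positivity) h4]
  exact h3.trans (le_max_left _ _)

/-! ## the Dedekind zeta function -/

section
variable {K : Type} [Field K] [NumberField K]

lemma ZK_nonneg (x : ℝ) : 0 ≤ ZK K x := by
  refine tsum_nonneg fun n => ?_
  split_ifs
  · exact le_rfl
  · exact mul_nonneg (aK_nonneg n) (by positivity)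

lemma ZK_anti {x y : ℝ} (hx : 1 < x) (hxy : x ≤ y) : ZK K y ≤ ZK K x := by
  refine Summable.tsum_le_tsum (fun n => ?_) (ZK_summable (by linarith)) (ZK_summable hx)
  split_ifs with hn
  · exact le_rfl
  · refine mul_le_mul_of_nonneg_left ?_ (aK_nonneg n)
    refine Real.rpow_le_rpow_of_exponent_le ?_ (by linarith)
    exact_mod_cast Nat.one_le_iff_ne_zero.mpr hn

lemma ZK_le (K : Type) [Field K] [NumberField K] :
    ∃ C : ℝ, 0 < C ∧ ∀ x : ℝ, 1 < x → x ≤ 3 → ZK K x ≤ C / (x - 1) := by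
  have h1 : ∀ᶠ x : ℝ in 𝓝[>] 1, (x - 1) * ZK K x < dedekindZeta_residue K + 1 :=
    (ZK_tendsto (K := K)).eventually (gt_mem_nhds (by linarith))
  obtain ⟨u, hu1, hu⟩ := mem_nhdsGT_iff_exists_Ioo_subset.1 h1
  simp only [Set.mem_Ioi] at hu1
  set v : ℝ := (1 + u) / 2 with hv
  have hv1 : 1 < v := by rw [hv]; linarith
  have hvu : v < u := by rw [hv]; linarith
  refine ⟨max (dedekindZeta_residue K + 1) (2 * ZK K v), lt_max_of_lt_left (by
    have := dedekindZeta_residue_pos K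
    linarith), fun x hx hx3 => ?_⟩
  rw [le_div_iff₀ (by linarith)]
  by_cases hxu : x < u
  · have := hu ⟨hx, hxu⟩
    simp only [Set.mem_ofPred_eq] at this
    have h2 := le_max_left (dedekindZeta_residue K + 1) (2 * ZK K v)
    linarith
  · push Not at hxu
    have h2 := ZK_anti (K := K) hv1 (hvu.le.trans hxu)
    have h3 := le_max_right (dedekindZeta_residue K + 1) (2 * ZK K v)
    have h4 := ZK_nonneg (K := K) v
    nlinarith

lemma summable_norm_ideals {ι : Type} {j : ι → Ideal (𝓞 K)} (hj : Function.Injective j)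
    (h0 : ∀ i, j i ≠ ⊥) {x : ℝ} (hx : 1 < x) :
    Summable (fun i => ((Ideal.absNorm (j i) : ℕ) : ℝ) ^ (-x)) ∧
      ∑' i, ((Ideal.absNorm (j i) : ℕ) : ℝ) ^ (-x) ≤ ZK K x := by
  classical
  have hb : ∀ S : Finset ι, ∑ i ∈ S, ((Ideal.absNorm (j i) : ℕ) : ℝ) ^ (-x) ≤ ZK K x := by
    intro S
    have h1 := sum_ideals_le (K := K) hx (S.map ⟨j, hj⟩) (by
      intro I hI
      rw [Finset.mem_map] at hI
      obtain ⟨i, -, rfl⟩ := hI
      exact h0 i)
    rwa [Finset.sum_map] at h1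
  have hnn : ∀ i, 0 ≤ ((Ideal.absNorm (j i) : ℕ) : ℝ) ^ (-x) := fun i => by positivity
  have hs := summable_of_sum_le hnn hb
  exact ⟨hs, hs.tsum_le_of_sum_le hb⟩

lemma norm_tsum_ideals {ι : Type} {j : ι → Ideal (𝓞 K)} (hj : Function.Injective j)
    (h0 : ∀ i, j i ≠ ⊥) {f : ι → ℂ} {B : ℝ} (hB : 0 ≤ B) (hf : ∀ i, ‖f i‖ ≤ B) {s : ℂ}
    (hs : 1 < s.re) :
    ‖∑' i, f i * ((Ideal.absNorm (j i) : ℕ) : ℂ) ^ (-s)‖ ≤ B * ZK K s.re := by
  obtain ⟨h1, h2⟩ := summable_norm_ideals hj h0 hs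
  have hnorm : ∀ i, ‖f i * ((Ideal.absNorm (j i) : ℕ) : ℂ) ^ (-s)‖ ≤
      B * ((Ideal.absNorm (j i) : ℕ) : ℝ) ^ (-s.re) := by
    intro i
    have hpos : 0 < Ideal.absNorm (j i) := Nat.pos_of_ne_zero fun h =>
      h0 i (Ideal.absNorm_eq_zero_iff.mp h)
    rw [norm_mul, Complex.norm_natCast_cpow_of_pos hpos, Complex.neg_re]
    exact mul_le_mul_of_nonneg_right (hf i) (by positivity)
  refine (tsum_of_norm_bounded (h1.mul_left B).hasSum hnorm).trans ?_
  rw [tsum_mul_left]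
  exact mul_le_mul_of_nonneg_left h2 hB

/-- the Mellin transforms of the theta functions -/
lemma norm_mellin_hf (K : Type) [Field K] [NumberField K] : ∃ C : ℝ, 0 < C ∧
    ∀ (e : InfinitePlace K → ℕ) (Ψ : 𝓞 K → ℂ) (B : ℝ), 0 ≤ B → (∀ x, ‖Ψ x‖ ≤ B) → Nice e Ψ →
      ∀ s : ℂ, 1 < s.re → s.re ≤ 2 → MellinConvergent (hf e Ψ) s ∧
        ‖mellin (hf e Ψ) s‖ ≤ C * B * ZK K s.re := by
  classical
  obtain ⟨C, hC, h⟩ := mellin_hf K
  obtain ⟨C1, hC1, hg⟩ := gam_upper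
  refine ⟨C * C1 ^ (Fintype.card (K →+* ℂ)), by positivity, fun e Ψ B hB hΨ hN s hs hs2 => ?_⟩
  obtain ⟨h1, -, h3⟩ := h e Ψ hN s hs
  refine ⟨h1, ?_⟩
  rw [h3, norm_mul, norm_mul, Complex.norm_real, Real.norm_of_nonneg hC.le]
  have hgam : ‖∏ φ : K →+* ℂ, Complex.Gammaℝ (s + ex e φ)‖ ≤ C1 ^ (Fintype.card (K →+* ℂ)) := by
    rw [norm_prod]
    have hpc : C1 ^ (Fintype.card (K →+* ℂ)) = ∏ _φ : K →+* ℂ, C1 := by
      rw [Finset.prod_const, Finset.card_univ]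
    rw [hpc]
    refine Finset.prod_le_prod (fun φ _ => norm_nonneg _) fun φ _ => ?_
    have he := ex_le hN.he φ
    have he' : ((ex e φ : ℕ) : ℝ) ≤ 1 := by exact_mod_cast he
    have he0 : (0 : ℝ) ≤ ((ex e φ : ℕ) : ℝ) := Nat.cast_nonneg _
    have hre : (s + (ex e φ : ℂ)).re = s.re + ((ex e φ : ℕ) : ℝ) := by simp
    exact hg _ (by rw [hre]; linarith) (by rw [hre]; linarith)
  have hsum : ‖∑' J : PIdl K, AA e Ψ J * ((Ideal.absNorm J.1 : ℕ) : ℂ) ^ (-s)‖ ≤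
      B * ZK K s.re := by
    refine norm_tsum_ideals (j := fun J : PIdl K => J.1) Subtype.val_injective
      (fun J => J.2.1) hB (fun J => ?_) hs
    unfold AA
    rw [norm_mul]
    calc _ ≤ B * 1 := mul_le_mul (hΨ _) (norm_sg_le _ _) (norm_nonneg _) hB
      _ = B := mul_one B
  calc _ ≤ C * (C1 ^ (Fintype.card (K →+* ℂ)) * (B * ZK K s.re)) := by
        refine mul_le_mul_of_nonneg_left ?_ hC.le
        exact mul_le_mul hgam hsum (norm_nonneg _) (by positivity)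
    _ = _ := by ring

lemma mellin_sum {ι : Type*} (S : Finset ι) (f : ι → ℝ → ℂ) (s : ℂ)
    (h : ∀ i ∈ S, MellinConvergent (f i) s) :
    MellinConvergent (fun t => ∑ i ∈ S, f i t) s ∧
      mellin (fun t => ∑ i ∈ S, f i t) s = ∑ i ∈ S, mellin (f i) s := by
  have h1 : (fun t : ℝ => (t : ℂ) ^ (s - 1) • ∑ i ∈ S, f i t) =
      fun t : ℝ => ∑ i ∈ S, (t : ℂ) ^ (s - 1) • f i t := by
    funext t
    rw [Finset.smul_sum]
  constructor
  · unfold MellinConvergent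
    rw [h1]
    exact integrable_finsetSum S h
  · unfold mellin
    rw [h1]
    exact integral_finsetSum S h

lemma card_quot (m : ℕ) : (Nat.card (𝓞 K ⧸ Ideal.span {(m : 𝓞 K)}) : ℝ) =
    (m : ℝ) ^ (Module.finrank ℚ K) := by
  have h1 : Ideal.absNorm (Ideal.span {(m : 𝓞 K)}) = m ^ (Module.finrank ℚ K) := by
    rw [Ideal.absNorm_span_natCast, RingOfIntegers.rank]
  have h2 : Nat.card (𝓞 K ⧸ Ideal.span {(m : 𝓞 K)}) = Ideal.absNorm (Ideal.span {(m : 𝓞 K)}) := rfl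
  rw [h2, h1, Nat.cast_pow]

/-- the Mellin transform of the dual function -/
lemma norm_mellin_Gtot (K : Type) [Field K] [NumberField K] : ∃ C : ℝ, 0 < C ∧
    ∀ (e : InfinitePlace K → ℕ) (η : Ideal (𝓞 K) →*₀ ℂ), (∀ 𝔞, ‖η 𝔞‖ ≤ 1) →
      (∀ c, Nice e (Ps η e (rp K c))) → ∀ m : ℕ, 0 < m →
      (∀ c (x z : 𝓞 K), Ps η e (rp K c) (x + m * z) = Ps η e (rp K c) x) →
      ∀ s : ℂ, 1 < s.re → s.re ≤ 2 →
        ‖mellin (Gtot η e (rp K) m (Dd K)) s‖ ≤ C * (m : ℝ) ^ (3 * Module.finrank ℚ K) *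
          ZK K s.re := by
  classical
  obtain ⟨C, hC, h⟩ := norm_mellin_hf K
  set n := Module.finrank ℚ K with hn
  refine ⟨∑ c, (Ideal.absNorm (rp K c) : ℝ) * ((Dd K : ℝ) ^ (2 * n) * C), ?_,
    fun e η hη hN m hm hper s hs hs2 => ?_⟩
  · refine Finset.sum_pos (fun c _ => ?_) Finset.univ_nonempty
    have h1 := absNorm_pos' (reps_rp (K := K)) c
    have h2 : (0 : ℝ) < Dd K := by exact_mod_cast Dd_pos
    positivity
  have hM : (0 : ℝ) < ((m * Dd K : ℕ) : ℝ) := by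
    exact_mod_cast Nat.mul_pos hm Dd_pos
  have hM1 : (1 : ℝ) ≤ ((m * Dd K : ℕ) : ℝ) := by
    exact_mod_cast Nat.mul_pos hm Dd_pos
  have hb : ∀ c x, ‖Ps η e (rp K c) x‖ ≤ 1 := fun c x => norm_Ps_le hη _ x
  have hBF := fun c => norm_FT_le (D := Dd K) hm zero_le_one (hb c)
  have hE : ∀ c, Eqv e (FT (Dd K) m (Ps η e (rp K c))) := fun c =>
    FT_eqv (hN c).unit hm Dd_pos (hper c)
  have hN' : ∀ c, Nice e (rz (FT (Dd K) m (Ps η e (rp K c)))) := fun c =>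
    rz_nice (hN c).he (hN c).cpx (hBF c) (hE c)
  have hbz : ∀ c x, ‖rz (FT (Dd K) m (Ps η e (rp K c))) x‖ ≤ (m : ℝ) ^ n := by
    intro c x
    have := norm_rz_le (hBF c) x
    rwa [card_quot, mul_one, ← hn] at this
  have hc := fun c => h e _ _ (by positivity) (hbz c) (hN' c) s hs hs2
  have ha : ∀ c, (0 : ℝ) < (Ideal.absNorm (rp K c) : ℝ) / ((m * Dd K : ℕ) : ℝ) ^ n := fun c =>
    div_pos (absNorm_pos' reps_rp c) (by positivity)
  have hG : Gtot η e (rp K) m (Dd K) = fun t => ∑ c, ((Ideal.absNorm (rp K c) : ℂ) •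
      (fun t => hf e (rz (FT (Dd K) m (Ps η e (rp K c))))
        (t * ((Ideal.absNorm (rp K c) : ℝ) / ((m * Dd K : ℕ) : ℝ) ^ n))) t) := by
    funext t
    unfold Gtot
    refine Finset.sum_congr rfl fun c _ => ?_
    rw [smul_eq_mul, mul_div_assoc]
  have hconv : ∀ c, MellinConvergent (fun t => (Ideal.absNorm (rp K c) : ℂ) •
      (fun t => hf e (rz (FT (Dd K) m (Ps η e (rp K c))))
        (t * ((Ideal.absNorm (rp K c) : ℝ) / ((m * Dd K : ℕ) : ℝ) ^ n))) t) s := by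
    intro c
    refine MellinConvergent.const_smul ?_ _
    have h1 := (MellinConvergent.comp_mul_left (ha c)).mpr (hc c).1
    simpa only [mul_comm] using h1
  rw [hG, (mellin_sum _ _ s fun c _ => hconv c).2, Finset.sum_mul, Finset.sum_mul]
  refine (norm_sum_le _ _).trans (Finset.sum_le_sum fun c _ => ?_)
  rw [mellin_const_smul, mellin_comp_mul_right _ _ (ha c), norm_smul, norm_smul, Complex.norm_natCast,
    Complex.norm_cpow_eq_rpow_re_of_pos (ha c), Complex.neg_re]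
  have h1 : ((Ideal.absNorm (rp K c) : ℝ) / ((m * Dd K : ℕ) : ℝ) ^ n) ^ (-s.re) ≤
      (((m * Dd K : ℕ) : ℝ) ^ n) ^ (2 : ℕ) := by
    have hN1 : (1 : ℝ) ≤ Ideal.absNorm (rp K c) := by
      have := absNorm_pos' (reps_rp (K := K)) c
      exact_mod_cast this
    rw [Real.rpow_neg (ha c).le, ← Real.inv_rpow (ha c).le, inv_div]
    have h2 : (((m * Dd K : ℕ) : ℝ) ^ n) / (Ideal.absNorm (rp K c) : ℝ) ≤
        ((m * Dd K : ℕ) : ℝ) ^ n := div_le_self (by positivity) hN1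
    have h3 : (1 : ℝ) ≤ ((m * Dd K : ℕ) : ℝ) ^ n := one_le_pow₀ hM1
    calc _ ≤ (((m * Dd K : ℕ) : ℝ) ^ n) ^ (s.re) :=
          Real.rpow_le_rpow (by positivity) h2 (by linarith)
      _ ≤ (((m * Dd K : ℕ) : ℝ) ^ n) ^ ((2 : ℕ) : ℝ) :=
          Real.rpow_le_rpow_of_exponent_le h3 (by push_cast; linarith)
      _ = _ := Real.rpow_natCast _ _
  have h4 : (((m * Dd K : ℕ) : ℝ) ^ n) ^ (2 : ℕ) = (m : ℝ) ^ (2 * n) * (Dd K : ℝ) ^ (2 * n) := by
    push_cast
    rw [← pow_mul, mul_comm n 2, mul_pow]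
  rw [h4] at h1
  have hZ := ZK_nonneg (K := K) s.re
  have hD0 : (0 : ℝ) ≤ Dd K := Nat.cast_nonneg _
  calc _ ≤ (Ideal.absNorm (rp K c) : ℝ) * (((m : ℝ) ^ (2 * n) * (Dd K : ℝ) ^ (2 * n)) *
        (C * (m : ℝ) ^ n * ZK K s.re)) := by
        refine mul_le_mul_of_nonneg_left ?_ (Nat.cast_nonneg _)
        exact mul_le_mul h1 (hc c).2 (norm_nonneg _) (by positivity)
    _ = _ := by
        have : (m : ℝ) ^ (3 * n) = (m : ℝ) ^ (2 * n) * (m : ℝ) ^ n := by
          rw [← pow_add]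
          congr 1
          ring
        rw [this]
        ring

/-- Mellin transforms are bounded in vertical strips -/
lemma mellin_bdd {f : ℝ → ℂ} {a b : ℝ} (ha : MellinConvergent f (a : ℂ))
    (hb : MellinConvergent f (b : ℂ)) : ∃ C : ℝ, ∀ s : ℂ, a ≤ s.re → s.re ≤ b →
      ‖mellin f s‖ ≤ C := by
  have key : ∀ (s : ℂ) (t : ℝ), 0 < t → ‖(t : ℂ) ^ (s - 1) • f t‖ = t ^ (s.re - 1) * ‖f t‖ := by
    intro s t ht
    rw [norm_smul, Complex.norm_cpow_eq_rpow_re_of_pos ht]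
    simp
  have hia : IntegrableOn (fun t : ℝ => t ^ (a - 1) * ‖f t‖) (Ioi 0) := by
    refine (IntegrableOn.congr_fun ha.norm (fun t ht => ?_) measurableSet_Ioi)
    rw [key _ t ht, Complex.ofReal_re]
  have hib : IntegrableOn (fun t : ℝ => t ^ (b - 1) * ‖f t‖) (Ioi 0) := by
    refine (IntegrableOn.congr_fun hb.norm (fun t ht => ?_) measurableSet_Ioi)
    rw [key _ t ht, Complex.ofReal_re]
  refine ⟨∫ t in Ioi (0 : ℝ), (t ^ (a - 1) * ‖f t‖ + t ^ (b - 1) * ‖f t‖), fun s h1 h2 => ?_⟩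
  unfold mellin
  refine norm_integral_le_of_norm_le (hia.add hib) ?_
  filter_upwards [ae_restrict_mem measurableSet_Ioi] with t ht
  rw [key _ t ht]
  have ht' : (0 : ℝ) < t := ht
  have hp : t ^ (s.re - 1) ≤ t ^ (a - 1) + t ^ (b - 1) := by
    rcases le_total t 1 with h | h
    · have h3 : t ^ (s.re - 1) ≤ t ^ (a - 1) :=
        Real.rpow_le_rpow_of_exponent_ge ht' h (by linarith)
      have : 0 ≤ t ^ (b - 1) := by positivity
      linarith
    · have h3 : t ^ (s.re - 1) ≤ t ^ (b - 1) :=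
        Real.rpow_le_rpow_of_exponent_le h (by linarith)
      have : 0 ≤ t ^ (a - 1) := by positivity
      linarith
  calc t ^ (s.re - 1) * ‖f t‖ ≤ (t ^ (a - 1) + t ^ (b - 1)) * ‖f t‖ :=
        mul_le_mul_of_nonneg_right hp (norm_nonneg _)
    _ = _ := by rw [add_mul]

/-- the trivial bound of the L-function -/
lemma norm_LI_le {η : Ideal (𝓞 K) →*₀ ℂ} (hη : ∀ 𝔞, ‖η 𝔞‖ ≤ 1) {s : ℂ} (hs : 1 < s.re) :
    ‖LI η s‖ ≤ ZK K s.re := by
  classical
  unfold LI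
  have h0 : ∑' 𝔞 : Ideal (𝓞 K), η 𝔞 * ((Ideal.absNorm 𝔞 : ℕ) : ℂ) ^ (-s) =
      ∑' I : {I : Ideal (𝓞 K) // I ≠ ⊥}, η I.1 * ((Ideal.absNorm I.1 : ℕ) : ℂ) ^ (-s) := by
    refine (tsum_subtype_eq_of_support_subset (s := {I : Ideal (𝓞 K) | I ≠ ⊥})
      (f := fun 𝔞 : Ideal (𝓞 K) => η 𝔞 * ((Ideal.absNorm 𝔞 : ℕ) : ℂ) ^ (-s)) ?_).symm
    intro I hI
    rw [Function.mem_support] at hI
    intro h
    apply hI
    rw [h]
    have : η (⊥ : Ideal (𝓞 K)) = 0 := map_zero η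
    rw [this, zero_mul]
  rw [h0]
  have h1 := norm_tsum_ideals (K := K) (j := fun I : {I : Ideal (𝓞 K) // I ≠ ⊥} => I.1)
    Subtype.val_injective (fun I => I.2) zero_le_one (f := fun I => η I.1) (fun I => hη I.1) hs
  rwa [one_mul] at h1

lemma log_mm (K : Type) [Field K] [NumberField K] : ∃ P H : ℕ, ∀ 𝔪 : Ideal (𝓞 K), 𝔪 ≠ ⊥ →
    Real.log (mm (rp K) 𝔪 : ℕ) = Real.log P + H * Real.log (Ideal.absNorm 𝔪) := by
  refine ⟨∏ c, Ideal.absNorm (rp K c), Fintype.card (ClassGroup (𝓞 K)), fun 𝔪 h𝔪 => ?_⟩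
  have h1 : mm (rp K) 𝔪 = (∏ c, Ideal.absNorm (rp K c)) *
      (Ideal.absNorm 𝔪) ^ Fintype.card (ClassGroup (𝓞 K)) := by
    unfold mm
    rw [← Finset.card_univ, ← Finset.prod_const, ← Finset.prod_mul_distrib]
    refine Finset.prod_congr rfl fun c _ => ?_
    rw [map_mul]
  have hP0 : (∏ c, Ideal.absNorm (rp K c)) ≠ 0 := Finset.prod_ne_zero_iff.mpr fun c _ h =>
    rp_ne_bot c (Ideal.absNorm_eq_zero_iff.mp h)
  have hm0 : Ideal.absNorm 𝔪 ≠ 0 := fun h1 => h𝔪 (Ideal.absNorm_eq_zero_iff.mp h1)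
  rw [h1, Nat.cast_mul, Nat.cast_pow, Real.log_mul (by exact_mod_cast hP0)
    (pow_ne_zero _ (by exact_mod_cast hm0)), Real.log_pow]

/-- **Uniform bound near `s = 1`** -/
theorem norm_LI_log (K : Type) [Field K] [NumberField K] : ∃ C : ℝ, 0 < C ∧
    ∀ (𝔪 : Ideal (𝓞 K)) (e : InfinitePlace K → ℕ) (η : Ideal (𝓞 K) →*₀ ℂ), IsModChar 𝔪 e η →
      (∃ 𝔞, IsCoprime 𝔞 𝔪 ∧ η 𝔞 ≠ 1) → ∀ σ : ℝ, 1 < σ → σ ≤ 2 →
        ‖LI η (σ : ℂ)‖ ≤ C * (1 + Real.log (Ideal.absNorm 𝔪)) := by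
  classical
  obtain ⟨V, hV, hfe⟩ := fam_fe K
  obtain ⟨Cm, hCm, hmel⟩ := mellin_Ftot K
  obtain ⟨C1, hC1, hg1⟩ := gam_upper
  obtain ⟨c1, hc1, hg2⟩ := gam_lower
  obtain ⟨C2, hC2, hG⟩ := norm_mellin_Gtot K
  obtain ⟨C3, hC3, hZ⟩ := ZK_le K
  set n := Module.finrank ℚ K with hn
  set k := Fintype.card (K →+* ℂ) with hk
  set C4 : ℝ := (Cm * C1 ^ k + V⁻¹ * C2) * C3 with hC4
  have hC4p : 0 < C4 := by positivity
  set C5 : ℝ := C4 * Real.exp (3 * n) / (Cm * c1 ^ k) + C3 with hC5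
  have hC5p : 0 < C5 := by positivity
  obtain ⟨P, H, hlogm'⟩ := log_mm K
  have hlogP : 0 ≤ Real.log P := Real.log_natCast_nonneg _
  refine ⟨C5 * (1 + Real.log P + H), by positivity, fun 𝔪 e η h hnt σ hσ1 hσ2 => ?_⟩
  have hm𝔪0 : 0 < Ideal.absNorm 𝔪 := Nat.pos_of_ne_zero fun h1 =>
    h.ne_bot (Ideal.absNorm_eq_zero_iff.mp h1)
  have hlog𝔪 : 0 ≤ Real.log (Ideal.absNorm 𝔪) := Real.log_natCast_nonneg _
  have hN : ∀ c, Nice e (Ps η e (rp K c)) := fun c => h.nice (rp_ne_bot c)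
  obtain ⟨m, hm0, hper, hlogm, hzero⟩ : ∃ m : ℕ, 0 < m ∧
      (∀ c (x z : 𝓞 K), Ps η e (rp K c) (x + m * z) = Ps η e (rp K c) x) ∧
      Real.log m = Real.log P + H * Real.log (Ideal.absNorm 𝔪) ∧
      G00 e * (∑ c, (Ideal.absNorm (rp K c) : ℂ) * FT (Dd K) m (Ps η e (rp K c)) 0) = 0 :=
    ⟨mm (rp K) 𝔪, mm_pos rp_ne_bot h.ne_bot, fun c => h.per_m (rp_ne_bot c) (mm_mem _ _ c),
      hlogm' 𝔪 h.ne_bot, h.const_zero hnt⟩
  set L : ℝ := Real.log m with hL
  have hL0 : 0 ≤ L := Real.log_natCast_nonneg _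
  suffices hmain : ‖LI η (σ : ℂ)‖ ≤ C5 * (1 + L) by
    refine hmain.trans ?_
    rw [mul_assoc]
    refine mul_le_mul_of_nonneg_left ?_ hC5p.le
    rw [hlogm]
    have hH0 : (0 : ℝ) ≤ H := Nat.cast_nonneg _
    nlinarith [mul_nonneg hH0 hlog𝔪, mul_nonneg hlogP hlog𝔪]
  obtain ⟨h1, h2, h3⟩ := hfe (rp K) reps_rp e η hN m (Dd K) hm0
    Dd_pos Dd_mem hper hzero
  set δ : ℝ := 1 / (1 + L) with hδ
  have hδ0 : 0 < δ := by positivity
  have hδ1 : δ ≤ 1 := by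
    rw [hδ, div_le_one (by positivity)]
    linarith
  have hδinv : 1 / δ = 1 + L := by rw [hδ, one_div_one_div]
  have hZδ : ZK K (1 + δ) ≤ C3 / δ := by
    have := hZ (1 + δ) (by linarith) (by linarith)
    rwa [add_sub_cancel_left] at this
  by_cases hσ : 1 + δ < σ
  · -- the trivial range
    have h4 := norm_LI_le h.norm_le_one (s := (σ : ℂ)) (by simpa using hσ1)
    rw [Complex.ofReal_re] at h4
    have h5 := ZK_anti (K := K) (x := 1 + δ) (y := σ) (by linarith) hσ.le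
    have h6 : C3 / δ = C3 * (1 + L) := by rw [← hδinv]; ring
    have h7 : C3 * (1 + L) ≤ C5 * (1 + L) := by
      refine mul_le_mul_of_nonneg_right ?_ (by positivity)
      rw [hC5]
      have : 0 < C4 * Real.exp (3 * n) / (Cm * c1 ^ k) := by positivity
      linarith
    linarith
  push Not at hσ
  -- the auxiliary function
  set T : ℝ := 3 * n * L with hT
  have hT0 : 0 ≤ T := by positivity
  set g : ℂ → ℂ := fun s => mellin (Ftot η e (rp K)) s * Complex.exp ((T : ℂ) * (s - 1 - δ)) with hg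
  have hgn : ∀ s, ‖g s‖ = ‖mellin (Ftot η e (rp K)) s‖ * Real.exp (T * (s.re - 1 - δ)) := by
    intro s
    rw [hg]
    simp only
    rw [norm_mul, Complex.norm_exp]
    congr 2
    simp
  have hgd : Differentiable ℂ g := by
    rw [hg]
    exact h2.mul (by fun_prop)
  -- the right line
  have hright : ∀ s : ℂ, s.re = 1 + δ → ‖g s‖ ≤ C4 / δ := by
    intro s hs
    rw [hgn, hs, show (1 + δ - 1 - δ : ℝ) = 0 by ring, mul_zero, Real.exp_zero, mul_one,
      (hmel (rp K) reps_rp e η h.norm_le_one hN s (by rw [hs]; linarith)).2, norm_mul, norm_mul,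
      Complex.norm_real, Real.norm_of_nonneg hCm.le]
    have hgam : ‖∏ φ : K →+* ℂ, Complex.Gammaℝ (s + ex e φ)‖ ≤ C1 ^ k := by
      rw [norm_prod]
      have hpc : C1 ^ k = ∏ _φ : K →+* ℂ, C1 := by
        rw [Finset.prod_const, Finset.card_univ]
      rw [hpc]
      refine Finset.prod_le_prod (fun φ _ => norm_nonneg _) fun φ _ => ?_
      have he := ex_le h.sig_le φ
      have he' : ((ex e φ : ℕ) : ℝ) ≤ 1 := by exact_mod_cast he
      have he0 : (0 : ℝ) ≤ ((ex e φ : ℕ) : ℝ) := Nat.cast_nonneg _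
      have hre : (s + (ex e φ : ℂ)).re = s.re + ((ex e φ : ℕ) : ℝ) := by simp
      exact hg1 _ (by rw [hre]; linarith) (by rw [hre]; linarith)
    have hLI := norm_LI_le h.norm_le_one (s := s) (by rw [hs]; linarith)
    rw [hs] at hLI
    have hLI' := hLI.trans hZδ
    calc Cm * (‖∏ φ : K →+* ℂ, Complex.Gammaℝ (s + ex e φ)‖ * ‖LI η s‖) ≤
          Cm * (C1 ^ k * (C3 / δ)) := by
          refine mul_le_mul_of_nonneg_left ?_ hCm.le
          exact mul_le_mul hgam hLI' (norm_nonneg _) (by positivity)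
      _ = (Cm * C1 ^ k) * C3 / δ := by ring
      _ ≤ C4 / δ := by
          refine div_le_div_of_nonneg_right ?_ hδ0.le
          rw [hC4]
          refine mul_le_mul_of_nonneg_right ?_ hC3.le
          have : 0 < V⁻¹ * C2 := by positivity
          linarith
  -- the left line
  have hleft : ∀ s : ℂ, s.re = -δ → ‖g s‖ ≤ C4 / δ := by
    intro s hs
    have hre : (1 - s).re = 1 + δ := by
      rw [Complex.sub_re, Complex.one_re, hs]
      ring
    have h4 := h3 (1 - s)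
    rw [sub_sub_cancel] at h4
    have hn1 : ‖((V⁻¹ : ℝ) : ℂ) * ((m : ℂ) ^ n)⁻¹ * (-I) ^ (∑ φ : K →+* ℂ, eM e φ)‖ ≤ V⁻¹ := by
      rw [norm_mul, norm_mul, norm_pow, norm_neg, Complex.norm_I, one_pow, mul_one,
        Complex.norm_real, Real.norm_of_nonneg (inv_pos.mpr hV).le, norm_inv, norm_pow,
        Complex.norm_natCast]
      have h5 : ((m : ℝ) ^ n)⁻¹ ≤ 1 := by
        refine inv_le_one_of_one_le₀ (one_le_pow₀ ?_)
        exact_mod_cast hm0
      calc V⁻¹ * ((m : ℝ) ^ n)⁻¹ ≤ V⁻¹ * 1 := mul_le_mul_of_nonneg_left h5 (inv_pos.mpr hV).le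
        _ = _ := mul_one _
    have h5 := hG e η h.norm_le_one hN m hm0 hper (1 - s) (by rw [hre]; linarith)
      (by rw [hre]; linarith)
    rw [hre] at h5
    have hmexp : (m : ℝ) ^ (3 * n) = Real.exp T := by
      rw [hT, hL]
      have hm0' : (0 : ℝ) < m := by exact_mod_cast hm0
      rw [← Real.rpow_natCast, Real.rpow_def_of_pos hm0']
      congr 1
      push_cast
      ring
    rw [hgn, h4, norm_mul, hs]
    have h6 : ‖mellin (Gtot η e (rp K) m (Dd K)) (1 - s)‖ ≤ C2 * Real.exp T * (C3 / δ) := by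
      refine h5.trans ?_
      rw [hmexp]
      exact mul_le_mul_of_nonneg_left hZδ (by positivity)
    have h7 : Real.exp (T * (-δ - 1 - δ)) ≤ Real.exp (-T) := by
      refine Real.exp_le_exp.mpr ?_
      nlinarith
    calc _ ≤ V⁻¹ * (C2 * Real.exp T * (C3 / δ)) * Real.exp (-T) := by
          refine mul_le_mul ?_ h7 (Real.exp_pos _).le (by positivity)
          exact mul_le_mul hn1 h6 (norm_nonneg _) (by positivity)
      _ = (V⁻¹ * C2) * C3 / δ * (Real.exp T * Real.exp (-T)) := by ring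
      _ = (V⁻¹ * C2) * C3 / δ := by
          rw [← Real.exp_add, add_neg_cancel, Real.exp_zero, mul_one]
      _ ≤ C4 / δ := by
          refine div_le_div_of_nonneg_right ?_ hδ0.le
          rw [hC4]
          refine mul_le_mul_of_nonneg_right ?_ hC3.le
          have : 0 < Cm * C1 ^ k := by positivity
          linarith
  -- bounded in the strip
  obtain ⟨B, hB⟩ := mellin_bdd (h1 ((-δ : ℝ) : ℂ)) (h1 ((1 + δ : ℝ) : ℂ))
  have hgb : ∀ s : ℂ, -δ ≤ s.re → s.re ≤ 1 + δ → ‖g s‖ ≤ B := by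
    intro s hs1 hs2
    rw [hgn]
    have h4 := hB s hs1 hs2
    have h5 : Real.exp (T * (s.re - 1 - δ)) ≤ 1 := by
      refine Real.exp_le_one_iff.mpr ?_
      exact mul_nonpos_of_nonneg_of_nonpos hT0 (by linarith)
    calc _ ≤ B * 1 := mul_le_mul h4 h5 (Real.exp_pos _).le ((norm_nonneg _).trans h4)
      _ = B := mul_one B
  have hPL := PhragmenLindelof.vertical_strip (a := -δ) (b := 1 + δ) (f := g) (C := C4 / δ)
    (z := (σ : ℂ)) hgd.diffContOnCl ⟨0, by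
      refine div_pos Real.pi_pos ?_
      linarith, 0, by
      refine Asymptotics.IsBigO.of_bound B ?_
      rw [Filter.eventually_inf_principal]
      refine Filter.Eventually.of_forall fun s hs => ?_
      have h4 := hgb s hs.1.le hs.2.le
      simpa using h4⟩ hleft hright (by rw [Complex.ofReal_re]; linarith)
      (by rw [Complex.ofReal_re]; exact hσ)
  rw [hgn, Complex.ofReal_re] at hPL
  -- conclusion
  have hreσ : (1 : ℝ) < ((σ : ℂ)).re := by rwa [Complex.ofReal_re]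
  rw [(hmel (rp K) reps_rp e η h.norm_le_one hN (σ : ℂ) hreσ).2, norm_mul, norm_mul,
      Complex.norm_real, Real.norm_of_nonneg hCm.le] at hPL
  have hgam : c1 ^ k ≤ ‖∏ φ : K →+* ℂ, Complex.Gammaℝ ((σ : ℂ) + ex e φ)‖ := by
    rw [norm_prod]
    have hpc : c1 ^ k = ∏ _φ : K →+* ℂ, c1 := by
      rw [Finset.prod_const, Finset.card_univ]
    rw [hpc]
    refine Finset.prod_le_prod (fun φ _ => hc1.le) fun φ _ => ?_
    have he := ex_le h.sig_le φ
    have he' : ((ex e φ : ℕ) : ℝ) ≤ 1 := by exact_mod_cast he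
    have he0 : (0 : ℝ) ≤ ((ex e φ : ℕ) : ℝ) := Nat.cast_nonneg _
    have h4 := hg2 (σ + ((ex e φ : ℕ) : ℝ)) (by linarith) (by linarith)
    push_cast at h4
    exact h4
  have hexp : Real.exp (-(3 * (n : ℝ))) ≤ Real.exp (T * (σ - 1 - δ)) := by
    refine Real.exp_le_exp.mpr ?_
    have h4 : T * δ ≤ 3 * n := by
      rw [hT, hδ]
      rw [mul_one_div, div_le_iff₀ (by positivity)]
      have hn0 : (0 : ℝ) ≤ n := Nat.cast_nonneg _
      nlinarith
    have h5 : 0 ≤ T * (σ - 1) := mul_nonneg hT0 (by linarith)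
    linarith [show T * (σ - 1 - δ) = T * (σ - 1) - T * δ by ring]
  have hfin : Cm * (c1 ^ k * ‖LI η (σ : ℂ)‖) * Real.exp (-(3 * (n : ℝ))) ≤ C4 / δ := by
    refine le_trans ?_ hPL
    refine mul_le_mul ?_ hexp (Real.exp_pos _).le (by positivity)
    refine mul_le_mul_of_nonneg_left ?_ hCm.le
    exact mul_le_mul_of_nonneg_right hgam (norm_nonneg _)
  have h8 : ‖LI η (σ : ℂ)‖ ≤ C4 * Real.exp (3 * n) / (Cm * c1 ^ k) * (1 + L) := by
    rw [Real.exp_neg] at hfin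
    have h9 : C4 / δ = C4 * (1 + L) := by rw [← hδinv]; ring
    rw [h9] at hfin
    have hE := Real.exp_pos (3 * (n : ℝ))
    rw [div_mul_eq_mul_div, le_div_iff₀ (by positivity)]
    have h10 : Cm * (c1 ^ k * ‖LI η (σ : ℂ)‖) ≤ C4 * (1 + L) * Real.exp (3 * n) := by
      rwa [← div_eq_mul_inv, div_le_iff₀ hE] at hfin
    calc ‖LI η (σ : ℂ)‖ * (Cm * c1 ^ k) = Cm * (c1 ^ k * ‖LI η (σ : ℂ)‖) := by ring
      _ ≤ _ := h10
      _ = _ := by ring
  refine h8.trans (mul_le_mul_of_nonneg_right ?_ (by positivity))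
  rw [hC5]
  linarith

end

end Pool.Agent.Y773.G.R78
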