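import Pool.Agent.Y772.HG.Tw
import Pool.Agent.H385R2.EcD1
import Pool.Agent.L7h78.RP.Ana

/-! # Dirichlet characters of the norm as ray class characters -/

set_option autoImplicit false
set_option linter.unusedSectionVars false

open NumberField Complex

namespace Pool.Agent.Y773.G.R78

open Pool.Agent.Y772.TW (coprime_q crt_tpos absNorm_tpos norm_eq_of_sub)
open Pool.Agent.Y772.SG (coprime_iff coprime_congr)
open Pool.Agent.Y772.G (t_sig t_tw)

open Classical in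
/-- the trivial character -/
noncomputable def tr (K : Type) [Field K] [NumberField K] : Ideal (𝓞 K) →*₀ ℂ where
  toFun 𝔞 := if 𝔞 = 0 then 0 else 1
  map_zero' := if_pos rfl
  map_one' := if_neg one_ne_zero
  map_mul' 𝔞 𝔟 := by
    by_cases h1 : 𝔞 = 0
    · rw [h1, zero_mul, if_pos rfl, zero_mul]
    · by_cases h2 : 𝔟 = 0
      · rw [h2, mul_zero, if_pos rfl, mul_zero]
      · rw [if_neg h1, if_neg h2, if_neg (mul_ne_zero h1 h2), one_mul]

section
variable {K : Type} [Field K] [NumberField K]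

lemma tr_ne {𝔞 : Ideal (𝓞 K)} (h : 𝔞 ≠ 0) : tr K 𝔞 = 1 := if_neg h

lemma tw_ne {𝔞 : Ideal (𝓞 K)} (h : 𝔞 ≠ 0) {Q : ℕ} (χ : DirichletCharacter ℂ Q) :
    tw (tr K) χ 𝔞 = χ ((Ideal.absNorm 𝔞 : ℕ) : ZMod Q) := by
  change tr K 𝔞 * _ = _
  rw [tr_ne h, one_mul]

lemma span_nat_ne_top {Q : ℕ} (hQ : 1 < Q) : Ideal.span {(Q : 𝓞 K)} ≠ ⊤ := by
  intro h
  have h1 : Ideal.absNorm (Ideal.span {(Q : 𝓞 K)}) = Q ^ (Module.finrank ℤ (𝓞 K)) :=
    Ideal.absNorm_span_natCast Q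
  rw [h, Ideal.absNorm_top] at h1
  have h2 : 0 < Module.finrank ℤ (𝓞 K) := by
    rw [RingOfIntegers.rank]
    exact Module.finrank_pos
  have h3 := Nat.one_lt_pow h2.ne' hQ
  omega

lemma modChar {Q : ℕ} (hQ : 1 < Q) (χ : DirichletCharacter ℂ Q) :
    ∃ e, IsModChar (Ideal.span {(Q : 𝓞 K)}) e (tw (tr K) χ) := by
  have hQ0 : (Ideal.span {(Q : 𝓞 K)} : Ideal (𝓞 K)) ≠ ⊥ := by
    rw [Ne, Ideal.span_singleton_eq_bot]
    exact_mod_cast (by omega : Q ≠ 0)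
  have hray : ∀ x : 𝓞 K, x ≠ 0 → x - 1 ∈ Ideal.span {(Q : 𝓞 K)} → TPos K x →
      tw (tr K) χ (Ideal.span {x}) = 1 := by
    intro x hx0 hx hpos
    have hx1 : Ideal.span {x} ≠ 0 := by
      rw [Ne, Ideal.zero_eq_bot, Ideal.span_singleton_eq_bot]
      exact hx0
    rw [tw_ne hx1]
    have h1 : ((Ideal.absNorm (Ideal.span {x}) : ℕ) : ZMod Q) =
        ((Algebra.norm ℤ x : ℤ) : ZMod Q) := by
      rw [← absNorm_tpos hx0 hpos]
      simp
    rw [h1, norm_eq_of_sub hx, map_one, Int.cast_one, map_one]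
  obtain ⟨e, he1, he2, he3⟩ := t_sig K _ (tw (tr K) χ) hQ0 hray
  refine ⟨e, hQ0, span_nat_ne_top hQ, he1, he2, fun 𝔞 => ?_, he3⟩
  by_cases h : 𝔞 = 0
  · rw [h, map_zero]
    simp only [ne_eq, not_true_eq_false, false_iff]
    rw [coprime_q, Ideal.zero_eq_bot, Ideal.absNorm_bot, Nat.coprime_zero_left]
    omega
  · rw [tw_ne h, coprime_q, ← ZMod.isUnit_iff_coprime]
    constructor
    · intro h
      by_contra h1
      exact h (χ.map_nonunit h1)
    · intro h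
      exact (h.map χ).ne_zero

lemma primChar_tr (K : Type) [Field K] [NumberField K] : IsPrimChar K ⊤ (tr K) := by
  refine ⟨top_ne_bot, fun 𝔞 h => ?_, fun x hx _ _ => ?_, fun 𝔤 h1 h2 => ?_⟩
  · rw [tr_ne h]
    simp only [ne_eq, one_ne_zero, not_false_eq_true, true_iff]
    rw [← Ideal.one_eq_top]
    exact isCoprime_one_right
  · refine tr_ne ?_
    rw [Ne, Ideal.zero_eq_bot, Ideal.span_singleton_eq_bot]
    exact hx
  · exfalso
    apply h2
    rw [← Ideal.one_eq_top] at h1 ⊢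
    exact isUnit_iff_eq_one.1 (isUnit_of_dvd_one h1)

lemma nontriv {q r : ℕ} (hq : 0 < q) (hr : 1 < r) (hcop : Nat.Coprime q r)
    (hdisc : IsCoprime (r : ℤ) (discr K)) (ψ : DirichletCharacter ℂ q)
    (ρ : DirichletCharacter ℂ r) (hρ : ρ.IsPrimitive) :
    ∃ 𝔞, IsCoprime 𝔞 (Ideal.span {((q * r : ℕ) : 𝓞 K)}) ∧ tw (tr K) (H385.pm ψ ρ) 𝔞 ≠ 1 := by
  have hprim := t_tw K ⊤ (tr K) (primChar_tr K) r ρ hr.le hρ
    (by rw [Ideal.absNorm_top]; exact Nat.coprime_one_right r) hdisc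
  have hne : (⊤ : Ideal (𝓞 K)) ≠ ⊤ * Ideal.span {(r : 𝓞 K)} := by
    rw [Ideal.top_mul]
    exact (span_nat_ne_top hr).symm
  obtain ⟨x, -, hx1, hx2, hx3⟩ := hprim.prim ⊤ (by
    rw [← Ideal.one_eq_top]
    exact one_dvd _) hne
  rw [Ideal.top_mul] at hx2
  have hx0 : x ≠ 0 := by
    rintro rfl
    rw [Ideal.span_singleton_eq_bot.2 rfl, coprime_q, Ideal.absNorm_bot,
      Nat.coprime_zero_left] at hx2
    omega
  have hcq : IsCoprime (Ideal.span {(q : 𝓞 K)}) (Ideal.span {(r : 𝓞 K)}) := by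
    rw [coprime_q, Ideal.absNorm_span_natCast]
    exact Nat.Coprime.pow_left _ hcop
  have hq0 : (Ideal.span {(q : 𝓞 K)} : Ideal (𝓞 K)) ≠ ⊥ := by
    rw [Ne, Ideal.span_singleton_eq_bot]
    exact_mod_cast hq.ne'
  obtain ⟨z, hz1, hz2, hz3, hz4⟩ := crt_tpos hq0 (by omega : 0 < r) hcq 1 x
  have hzs : Ideal.span {z} ≠ 0 := by
    rw [Ne, Ideal.zero_eq_bot, Ideal.span_singleton_eq_bot]
    exact hz4
  have hxs : Ideal.span {x} ≠ 0 := by
    rw [Ne, Ideal.zero_eq_bot, Ideal.span_singleton_eq_bot]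
    exact hx0
  refine ⟨Ideal.span {z}, ?_, ?_⟩
  · rw [coprime_q, Nat.coprime_mul_iff_right]
    refine ⟨coprime_q.1 (coprime_iff.2 ⟨1, by rwa [mul_one]⟩), coprime_q.1 (coprime_congr hz2 hx2)⟩
  · rw [tw_ne hxs] at hx3
    rw [tw_ne hzs, H385.pm_apply]
    have e1 : ((Ideal.absNorm (Ideal.span {z}) : ℕ) : ZMod q) = 1 := by
      have : ((Ideal.absNorm (Ideal.span {z}) : ℕ) : ZMod q) =
          ((Algebra.norm ℤ z : ℤ) : ZMod q) := by
        rw [← absNorm_tpos hz4 hz3]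
        simp
      rw [this, norm_eq_of_sub hz1, map_one, Int.cast_one]
    have e2 : ((Ideal.absNorm (Ideal.span {z}) : ℕ) : ZMod r) =
        ((Ideal.absNorm (Ideal.span {x}) : ℕ) : ZMod r) := by
      have h1 : ((Ideal.absNorm (Ideal.span {z}) : ℕ) : ZMod r) =
          ((Algebra.norm ℤ z : ℤ) : ZMod r) := by
        rw [← absNorm_tpos hz4 hz3]
        simp
      have h2 : ((Ideal.absNorm (Ideal.span {x}) : ℕ) : ZMod r) =
          ((Algebra.norm ℤ x : ℤ) : ZMod r) := by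
        rw [← absNorm_tpos hx0 hx1]
        simp
      rw [h1, h2, norm_eq_of_sub hz2]
    rw [e1, e2, map_one, one_mul]
    exact hx3

end

end Pool.Agent.Y773.G.R78
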