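import Pool.Agent.L7h78.RP.StH
import Pool.Agent.W655.RK.Ep

/-! # Real characters over the primes of degree one: repulsion -/

set_option autoImplicit false
set_option linter.unusedSectionVars false

open NumberField Finset

namespace Pool.Agent.L7h78.RP

open Pool.Agent.W262.RK Pool.Agent.W655.RK
open Pool.Agent.H474R2.PG (PR)
open Pool.Agent.H921R2.TatePole (R R_le hc R_eq_hc ZK)
open Pool.Agent.Y773.G.R78 (tr tr_ne sum_primes_le trunc norm_LI_le ZK_le)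

/-- the number of homomorphisms to `𝔽_p` -/
noncomputable def hK (K : Type) [Field K] [NumberField K] (p : ℕ) : ℝ :=
  (Nat.card (𝓞 K →+* ZMod p) : ℝ)

lemma hK_nonneg (K : Type) [Field K] [NumberField K] (p : ℕ) : 0 ≤ hK K p := Nat.cast_nonneg _

lemma hK_le (K : Type) [Field K] [NumberField K] {p : ℕ} (hp : p.Prime) :
    hK K p ≤ Module.finrank ℚ K := by
  have h5 := R_le (K := K) ⟨p, hp⟩
  rw [R_eq_hc] at h5
  unfold hc at h5
  unfold hK
  exact_mod_cast h5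

/-- the real character `(p / r) χ₄(p)^t` -/
def ch (t : Bool) (r p : ℕ) : ℝ := Jr p r * x4 t p

lemma ch_abs (t : Bool) (r p : ℕ) : |ch t r p| ≤ 1 := by
  unfold ch
  rw [abs_mul]
  exact mul_le_one₀ (Jr_abs _ _) (abs_nonneg _) (x4_abs _ _)

lemma PS_eq (z y : ℕ) (hzy : z < y) : PR (y : ℝ) = PR (z : ℝ) ∪ PS z y := by
  unfold PR PS
  rw [Nat.floor_natCast, Nat.floor_natCast]
  ext p
  simp only [mem_filter, mem_union, mem_Icc, mem_Ioc]
  constructor
  · rintro ⟨⟨h1, h2⟩, h3⟩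
    by_cases h : p ≤ z
    · exact Or.inl ⟨⟨h1, h⟩, h3⟩
    · exact Or.inr ⟨⟨by omega, h2⟩, h3⟩
  · rintro (⟨⟨h1, h2⟩, h3⟩ | ⟨⟨h1, h2⟩, h3⟩)
    · exact ⟨⟨h1, by omega⟩, h3⟩
    · exact ⟨⟨by omega, h2⟩, h3⟩

lemma sum_PS_le {f : ℕ → ℝ} {B : ℝ} (hB : 0 ≤ B) (hf : ∀ p, p.Prime → |f p| ≤ B) {z y : ℕ}
    (hzy : z < y) :
    ∑ p ∈ PS z y, f p / (p : ℝ) ≤ ∑ p ∈ PR (y : ℝ), f p / (p : ℝ) + B * z := by
  have hdisj : Disjoint (PR (z : ℝ)) (PS z y) := by
    unfold PR PS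
    rw [Nat.floor_natCast, Finset.disjoint_left]
    intro p h1 h2
    rw [mem_filter, mem_Icc] at h1
    rw [mem_filter, mem_Ioc] at h2
    omega
  rw [PS_eq z y hzy, sum_union hdisj]
  have h1 : -(B * z) ≤ ∑ p ∈ PR (z : ℝ), f p / (p : ℝ) := by
    have h2 : ∀ p ∈ PR (z : ℝ), -B ≤ f p / (p : ℝ) := by
      intro p hp
      unfold PR at hp
      rw [mem_filter] at hp
      have hp1 : (1 : ℝ) ≤ p := by exact_mod_cast hp.2.one_lt.le
      have h3 := (abs_le.1 (hf p hp.2)).1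
      rw [le_div_iff₀ (by linarith)]
      nlinarith
    have h3 := Finset.card_nsmul_le_sum _ _ _ h2
    rw [nsmul_eq_mul] at h3
    have h4 : ((PR (z : ℝ)).card : ℝ) ≤ z := by
      have : (PR (z : ℝ)).card ≤ z := by
        unfold PR
        rw [Nat.floor_natCast]
        refine (Finset.card_filter_le _ _).trans ?_
        rw [Nat.card_Icc]
        omega
      exact_mod_cast this
    nlinarith
  linarith

lemma logs {r : ℕ} (hr : 3 ≤ r) : 1 ≤ Real.log r ∧ 0 ≤ Real.log (Real.log r) := by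
  have h5 : Real.exp 1 ≤ r := by
    have := Real.exp_one_lt_d9
    have h6 : (3 : ℝ) ≤ r := by exact_mod_cast hr
    linarith
  have h1 := Real.log_le_log (Real.exp_pos 1) h5
  rw [Real.log_exp] at h1
  exact ⟨h1, Real.log_nonneg h1⟩

/-- the conditions on the modulus -/
structure Md (z r : ℕ) : Prop where
  one_lt : 1 < r
  sq : Squarefree r
  pr : ∀ p : ℕ, p.Prime → p ∣ r → z < p

lemma Md.three {z r : ℕ} (h : Md z r) (hz : 2 ≤ z) : 3 ≤ r := by
  obtain ⟨p, hp, hpr⟩ := Nat.exists_prime_and_dvd (by have := h.one_lt; omega : r ≠ 1)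
  have h1 := h.pr p hp hpr
  have h2 := Nat.le_of_dvd (by have := h.one_lt; omega) hpr
  omega

/-- the upper bound -/
lemma upper (K : Type) [Field K] [NumberField K] : ∃ (A : ℝ) (z₀ : ℕ), 0 ≤ A ∧ 2 ≤ z₀ ∧
    ∀ z : ℕ, z₀ ≤ z → ∃ C : ℝ, ∀ (t : Bool) (r y : ℕ), Md z r → z < y →
      ∑ p ∈ PS z y, hK K p * ch t r p / (p : ℝ) ≤ A * Real.log (Real.log r) + C := by
  obtain ⟨A, C, z₀, h⟩ := stH K 4 (by norm_num)
  refine ⟨|A|, max z₀ 2, abs_nonneg A, le_max_right _ _, fun z hz => ?_⟩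
  have hz1 := (le_max_left _ _).trans hz
  have hz2 := (le_max_right z₀ 2).trans hz
  set n : ℕ := Module.finrank ℚ K with hn
  refine ⟨C + n * z, fun t r y hr hzy => ?_⟩
  obtain ⟨hl1, hl2⟩ := logs (hr.three hz2)
  let ψ : DirichletCharacter ℤ 4 := if t then ZMod.χ₄ else 1
  have h1 := h ψ r hr.one_lt hr.sq (fun p hp hpr => lt_of_le_of_lt hz1 (hr.pr p hp hpr)) y
    (by exact_mod_cast (by omega : 3 ≤ y))
  set g : ℕ → ℝ := fun p => (Nat.card (𝓞 K →+* ZMod p) : ℝ) *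
      (((ψ (p : ZMod 4) : ℤ) : ℝ) * Jr (p : ℤ) r) with hg
  have hψ1 : ∀ p : ℕ, |(((ψ (p : ZMod 4) : ℤ) : ℝ) * Jr (p : ℤ) r)| ≤ 1 := by
    intro p
    rw [abs_mul]
    refine mul_le_one₀ ?_ (abs_nonneg _) (Jr_abs _ _)
    cases t
    · have h2 : ψ = 1 := rfl
      rw [h2]
      by_cases hu : IsUnit ((p : ZMod 4))
      · rw [MulChar.one_apply hu]; simp
      · rw [MulChar.map_nonunit _ hu]; simp
    · have h2 : ψ = ZMod.χ₄ := rfl
      rw [h2]
      rcases ZMod.isQuadratic_χ₄ (p : ZMod 4) with h | h | h <;> rw [h] <;> norm_num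
  have hgB : ∀ p, p.Prime → |g p| ≤ n := by
    intro p hp
    rw [hg]
    simp only
    rw [abs_mul, Nat.abs_cast]
    calc _ ≤ (n : ℝ) * 1 := mul_le_mul (hK_le K hp) (hψ1 p) (abs_nonneg _) (Nat.cast_nonneg n)
      _ = n := mul_one _
  have h2 := sum_PS_le (f := g) (Nat.cast_nonneg n) hgB hzy
  have h3 : ∑ p ∈ PS z y, hK K p * ch t r p / (p : ℝ) = ∑ p ∈ PS z y, g p / (p : ℝ) := by
    refine sum_congr rfl fun p hp => ?_
    congr 1
    rw [hg]
    simp only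
    unfold hK ch
    congr 1
    rw [mul_comm]
    congr 1
    have hp2 : ¬ 2 ∣ p := by
      intro h2
      have h3 := (Nat.prime_dvd_prime_iff_eq Nat.prime_two (PS_prime hp)).1 h2
      have h4 := PS_lt hp
      omega
    cases t
    · have h2 : ψ = 1 := rfl
      rw [h2, MulChar.one_apply]
      · simp [x4]
      · rw [ZMod.isUnit_iff_coprime]
        have : Nat.Coprime p 2 := (Nat.coprime_primes (PS_prime hp) Nat.prime_two).2 (by
          rintro rfl
          exact hp2 dvd_rfl)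
        exact Nat.Coprime.pow_right 2 this
    · rfl
  rw [h3]
  have h4 : A * Real.log (Real.log r) ≤ |A| * Real.log (Real.log r) :=
    mul_le_mul_of_nonneg_right (le_abs_self A) hl2
  have h5 : ∑ p ∈ PR (y : ℝ), g p / (p : ℝ) ≤ A * Real.log (Real.log r) + C := h1
  linarith

/-- the theorem of Mertens, upper bound -/
lemma mertens_up (K : Type) [Field K] [NumberField K] : ∃ C : ℝ, ∀ z y : ℕ, z < y → 3 ≤ y →
    ∑ p ∈ PS z y, hK K p / (p : ℝ) ≤ Real.log (Real.log y) + C := by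
  obtain ⟨C1, hC1⟩ := sum_primes_le K
  obtain ⟨C2, hC2, hZ⟩ := ZK_le K
  obtain ⟨C3, hC3, hT⟩ := trunc
  set n : ℕ := Module.finrank ℚ K with hn
  refine ⟨Real.log C2 + C1 + n * C3, fun z y hzy hy => ?_⟩
  have hy3 : (3 : ℝ) ≤ (y : ℝ) := by exact_mod_cast hy
  obtain ⟨hl1, hl2⟩ := logs hy
  have hlog0 : 0 < Real.log y := by linarith
  have h0 : ∑ p ∈ PS z y, hK K p / (p : ℝ) ≤ ∑ p ∈ PR (y : ℝ), hK K p / (p : ℝ) := by
    rw [PS_eq z y hzy]
    refine sum_le_sum_of_subset_of_nonneg subset_union_right fun p _ _ => ?_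
    exact div_nonneg (hK_nonneg K p) (Nat.cast_nonneg p)
  refine h0.trans ?_
  set x : ℝ := 1 + 1 / Real.log y with hx
  have hx1 : 1 < x := by rw [hx]; linarith [show (0 : ℝ) < 1 / Real.log y by positivity]
  have hx2 : x ≤ 2 := by
    have : 1 / Real.log y ≤ 1 := by
      rw [div_le_one hlog0]
      exact hl1
    rw [hx]; linarith
  have htr : ∀ 𝔞 : Ideal (𝓞 K), ‖tr K 𝔞‖ ≤ 1 := by
    intro 𝔞
    by_cases h : 𝔞 = 0
    · rw [h, map_zero]; simp
    · rw [tr_ne h]; simp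
  obtain ⟨h1, h2⟩ := hC1 (tr K) htr (fun _ => 1) (fun p 𝔭 h => by
    have h0 : 𝔭 ≠ 0 := by
      rintro rfl
      rw [Ideal.zero_eq_bot, Ideal.absNorm_bot] at h
      exact p.2.ne_zero h.symm
    rw [tr_ne h0]
    simp) x hx1
  have h3 := hT (fun p => hK K p) n (Nat.cast_nonneg n) (fun p => by
    rw [abs_of_nonneg (hK_nonneg K p)]
    exact hK_le K p.2) y hy3
  have h4 : ∑' p : Nat.Primes, hK K p * Pool.Agent.H921R2.TatePole.w x p =
      ∑' p : Nat.Primes, ((R K p : ℝ) * (fun _ : ℕ => (1 : ℝ)) p) *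
        Pool.Agent.H921R2.TatePole.w x p := by
    refine tsum_congr fun p => ?_
    rw [R_eq_hc, mul_one]
    rfl
  rw [← hx, h4] at h3
  have h5 := norm_LI_le htr (s := (x : ℂ)) (by rw [Complex.ofReal_re]; exact hx1)
  rw [Complex.ofReal_re] at h5
  have h6 := hZ x hx1 (by linarith)
  have h7 : C2 / (x - 1) = C2 * Real.log y := by
    rw [hx, add_sub_cancel_left]
    field_simp
  rw [h7] at h6
  have h8 : Real.log ‖Pool.Agent.Y773.LI (tr K) (x : ℂ)‖ ≤ Real.log C2 + Real.log (Real.log y) := by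
    rw [← Real.log_mul hC2.ne' hlog0.ne']
    exact Real.log_le_log (norm_pos_iff.mpr h1) (h5.trans h6)
  linarith

/-- the sum over the prime divisors -/
lemma sum_dvd_le {g : ℕ} {L : ℝ} (hg : g ≠ 0) (hL : 1 ≤ L) (hgL : Real.log g ≤ L) :
    ∑ p ∈ g.primeFactors, 1 / (p : ℝ) ≤ Real.log L + 3 := by
  have hL0 : 0 < L := by linarith
  have hsplit := Finset.sum_filter_add_sum_filter_not g.primeFactors (fun p : ℕ => (p : ℝ) ≤ L)
    (fun p => 1 / (p : ℝ))
  rw [← hsplit]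
  have h1 : ∑ p ∈ g.primeFactors.filter (fun p : ℕ => (p : ℝ) ≤ L), 1 / (p : ℝ) ≤
      1 + Real.log L := by
    have h2 : ∑ p ∈ g.primeFactors.filter (fun p : ℕ => (p : ℝ) ≤ L), 1 / (p : ℝ) ≤
        ∑ p ∈ Icc 1 ⌊L⌋₊, 1 / (p : ℝ) := by
      refine sum_le_sum_of_subset_of_nonneg (fun p hp => ?_) fun p _ _ => by positivity
      rw [mem_filter] at hp
      rw [mem_Icc]
      exact ⟨(Nat.prime_of_mem_primeFactors hp.1).one_lt.le, Nat.le_floor hp.2⟩
    have h3 := harmonic_floor_le_one_add_log L hL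
    have h4 : ((harmonic ⌊L⌋₊ : ℚ) : ℝ) = ∑ p ∈ Icc 1 ⌊L⌋₊, 1 / (p : ℝ) := by
      rw [harmonic_eq_sum_Icc]
      push_cast
      refine sum_congr rfl fun p _ => ?_
      rw [one_div]
    rw [h4] at h3
    exact h2.trans h3
  have h2 : ∑ p ∈ g.primeFactors.filter (fun p : ℕ => ¬ (p : ℝ) ≤ L), 1 / (p : ℝ) ≤ 2 := by
    have h3 : ∀ p ∈ g.primeFactors.filter (fun p : ℕ => ¬ (p : ℝ) ≤ L), 1 / (p : ℝ) ≤ 1 / L := by
      intro p hp
      rw [mem_filter, not_le] at hp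
      exact one_div_le_one_div_of_le hL0 hp.2.le
    have h4 := Finset.sum_le_card_nsmul _ _ _ h3
    rw [nsmul_eq_mul] at h4
    refine h4.trans ?_
    have h5 : ((g.primeFactors.filter (fun p : ℕ => ¬ (p : ℝ) ≤ L)).card : ℝ) * Real.log 2 ≤
        Real.log g := by
      have h6 : 2 ^ (g.primeFactors.filter (fun p : ℕ => ¬ (p : ℝ) ≤ L)).card ≤ g := by
        have h7 : 2 ^ g.primeFactors.card ≤ ∏ p ∈ g.primeFactors, p :=
          Finset.pow_card_le_prod _ _ _ fun p hp => (Nat.prime_of_mem_primeFactors hp).two_le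
        have h8 := Nat.le_of_dvd (Nat.pos_of_ne_zero hg) (Nat.prod_primeFactors_dvd g)
        exact (Nat.pow_le_pow_right (by norm_num) (Finset.card_filter_le _ _)).trans (h7.trans h8)
      have h7 : Real.log ((2 ^ (g.primeFactors.filter (fun p : ℕ => ¬ (p : ℝ) ≤ L)).card : ℕ) : ℝ) ≤
          Real.log g := Real.log_le_log (by positivity) (by exact_mod_cast h6)
      rwa [Nat.cast_pow, Real.log_pow] at h7
    have h6 := Real.log_two_gt_d9
    have h7 : (0 : ℝ) ≤ ((g.primeFactors.filter (fun p : ℕ => ¬ (p : ℝ) ≤ L)).card : ℝ) :=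
      Nat.cast_nonneg _
    rw [mul_one_div, div_le_iff₀ hL0]
    nlinarith
  linarith

lemma x4_sq {z y p : ℕ} (hz : 2 ≤ z) (t : Bool) (hp : p ∈ PS z y) : x4 t p * x4 t p = 1 := by
  unfold x4
  cases t
  · simp
  · simp only [if_true]
    have hp2 : p ≠ 2 := by
      have := PS_lt hp
      omega
    have hodd : p % 2 = 1 := (PS_prime hp).eq_two_or_odd.resolve_left hp2
    have h1 : p % 4 = 1 ∨ p % 4 = 3 := by omega
    rcases h1 with h1 | h1
    · have h2 : ZMod.χ₄ (p : ZMod 4) = 1 := ZMod.χ₄_nat_one_mod_four h1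
      rw [h2]; norm_num
    · have h2 : ZMod.χ₄ (p : ZMod 4) = -1 := ZMod.χ₄_nat_three_mod_four h1
      rw [h2]; norm_num

/-- the product of two characters -/
lemma upper_mul (K : Type) [Field K] [NumberField K] : ∃ (A : ℝ) (z₀ : ℕ), 0 ≤ A ∧ 2 ≤ z₀ ∧
    ∀ z : ℕ, z₀ ≤ z → ∃ C : ℝ, ∀ (t : Bool) (r₁ r₂ y : ℕ), Md z r₁ → Md z r₂ → r₁ ≠ r₂ → z < y →
      ∑ p ∈ PS z y, hK K p * (ch t r₁ p * ch t r₂ p) / (p : ℝ) ≤
        A * (Real.log (Real.log r₁) + Real.log (Real.log r₂)) + C := by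
  obtain ⟨A, z₀, hA, hz₀, h⟩ := upper K
  set n : ℕ := Module.finrank ℚ K with hn
  refine ⟨A + n, z₀, by positivity, hz₀, fun z hz => ?_⟩
  obtain ⟨C, hC⟩ := h z hz
  have hz2 : 2 ≤ z := hz₀.trans hz
  refine ⟨C + A * Real.log 2 + n * 3, fun t r₁ r₂ y h1 h2 hne hzy => ?_⟩
  obtain ⟨l11, l12⟩ := logs (h1.three hz2)
  obtain ⟨l21, l22⟩ := logs (h2.three hz2)
  set g : ℕ := Nat.gcd r₁ r₂ with hg
  obtain ⟨s₁, hs₁⟩ : g ∣ r₁ := Nat.gcd_dvd_left _ _
  obtain ⟨s₂, hs₂⟩ : g ∣ r₂ := Nat.gcd_dvd_right _ _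
  have hr10 : r₁ ≠ 0 := by have := h1.one_lt; omega
  have hr20 : r₂ ≠ 0 := by have := h2.one_lt; omega
  have hg0 : g ≠ 0 := fun h => hr10 (by rw [hs₁, h, zero_mul])
  have hs10 : s₁ ≠ 0 := fun h => hr10 (by rw [hs₁, h, mul_zero])
  have hs20 : s₂ ≠ 0 := fun h => hr20 (by rw [hs₂, h, mul_zero])
  have hcop : Nat.Coprime s₁ s₂ := by
    have h3 : Nat.gcd (g * s₁) (g * s₂) = g * Nat.gcd s₁ s₂ := Nat.gcd_mul_left _ _ _
    rw [← hs₁, ← hs₂, ← hg] at h3
    have h4 : g * 1 = g * Nat.gcd s₁ s₂ := by rw [mul_one]; exact h3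
    exact (Nat.eq_of_mul_eq_mul_left (Nat.pos_of_ne_zero hg0) h4).symm
  have hsq1 : Squarefree s₁ := h1.sq.squarefree_of_dvd (Dvd.intro_left g hs₁.symm)
  have hsq2 : Squarefree s₂ := h2.sq.squarefree_of_dvd (Dvd.intro_left g hs₂.symm)
  have hM : Md z (s₁ * s₂) := by
    refine ⟨?_, (Nat.squarefree_mul hcop).2 ⟨hsq1, hsq2⟩, fun p hp hpd => ?_⟩
    · by_contra hle
      have h3 : s₁ * s₂ ≠ 0 := mul_ne_zero hs10 hs20
      have h4 : s₁ * s₂ = 1 := by omega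
      have h5 : s₁ = 1 := Nat.dvd_one.1 ⟨s₂, h4.symm⟩
      have h6 : s₂ = 1 := Nat.dvd_one.1 ⟨s₁, by rw [mul_comm]; exact h4.symm⟩
      apply hne
      rw [hs₁, hs₂, h5, h6]
    · rcases (Nat.Prime.dvd_mul hp).1 hpd with h3 | h3
      · exact h1.pr p hp (h3.trans (Dvd.intro_left g hs₁.symm))
      · exact h2.pr p hp (h3.trans (Dvd.intro_left g hs₂.symm))
  have h3 := hC false (s₁ * s₂) y hM hzy
  -- comparison
  have h4 : ∑ p ∈ PS z y, hK K p * (ch t r₁ p * ch t r₂ p) / (p : ℝ) ≤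
      ∑ p ∈ PS z y, hK K p * ch false (s₁ * s₂) p / (p : ℝ) +
        ∑ p ∈ g.primeFactors, (n : ℝ) * (1 / (p : ℝ)) := by
    have h5 : ∀ p ∈ PS z y, hK K p * (ch t r₁ p * ch t r₂ p) / (p : ℝ) ≤
        hK K p * ch false (s₁ * s₂) p / (p : ℝ) +
          (if p ∈ g.primeFactors then (n : ℝ) * (1 / (p : ℝ)) else 0) := by
      intro p hp
      have hpp := PS_prime hp
      have e1 : ch t r₁ p * ch t r₂ p = Jr p g * Jr p g * Jr p (s₁ * s₂) := by
        have e2 : ch t r₁ p * ch t r₂ p = Jr p r₁ * Jr p r₂ * (x4 t p * x4 t p) := by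
          unfold ch
          ring
        rw [e2, x4_sq hz2 t hp, mul_one]
        conv_lhs => rw [hs₁, hs₂]
        rw [Jr_mul_right _ _ _ hg0 hs10, Jr_mul_right _ _ _ hg0 hs20, Jr_mul_right _ _ _ hs10 hs20]
        ring
      have e3 : ch false (s₁ * s₂) p = Jr p (s₁ * s₂) := by
        unfold ch x4
        simp
      rw [e1, e3]
      have hp0 : (0 : ℝ) < p := by exact_mod_cast hpp.pos
      have hk0 := hK_nonneg K p
      have hk1 := hK_le K hpp
      split_ifs with hpg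
      · have h6 := (abs_le.1 (Jr_abs (p : ℤ) (s₁ * s₂))).1
        have h7 : Jr p g = 0 := by
          unfold Jr
          have h8 : jacobiSym (p : ℤ) g = 0 := by
            rw [jacobiSym.eq_zero_iff, Int.gcd_natCast_natCast]
            refine ⟨hg0, fun h9 => ?_⟩
            have h10 : p ∣ 1 := by
              rw [← h9]
              exact Nat.dvd_gcd dvd_rfl (Nat.dvd_of_mem_primeFactors hpg)
            exact hpp.one_lt.ne' (Nat.dvd_one.1 h10)
          rw [h8, Int.cast_zero]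
        rw [h7, zero_mul, zero_mul, mul_zero, zero_div]
        have h8 : (0 : ℝ) ≤ (hK K p * Jr p (s₁ * s₂) + n) / p := by
          refine div_nonneg ?_ hp0.le
          nlinarith
        calc (0 : ℝ) ≤ (hK K p * Jr p (s₁ * s₂) + n) / p := h8
          _ = _ := by ring
      · have h7 : Jr p g * Jr p g = 1 := by
          unfold Jr
          have h8 : jacobiSym (p : ℤ) g ≠ 0 := by
            intro h9
            rw [jacobiSym.eq_zero_iff, Int.gcd_natCast_natCast] at h9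
            refine h9.2 ((hpp.coprime_iff_not_dvd).2 fun h10 => hpg ?_)
            exact Nat.mem_primeFactors.2 ⟨hpp, h10, hg0⟩
          rcases jacobiSym.trichotomy (p : ℤ) g with h | h | h
          · exact absurd h h8
          · rw [h]; norm_num
          · rw [h]; norm_num
        rw [h7, one_mul, add_zero]
    refine (Finset.sum_le_sum h5).trans ?_
    rw [Finset.sum_add_distrib]
    refine add_le_add le_rfl ?_
    rw [← Finset.sum_filter]
    refine sum_le_sum_of_subset_of_nonneg (fun p hp => (mem_filter.1 hp).2) fun p _ _ => ?_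
    positivity
  have h5 : ∑ p ∈ g.primeFactors, (n : ℝ) * (1 / (p : ℝ)) ≤
      n * (Real.log (Real.log r₁) + 3) := by
    rw [← Finset.mul_sum]
    refine mul_le_mul_of_nonneg_left ?_ (Nat.cast_nonneg n)
    refine sum_dvd_le hg0 l11 (Real.log_le_log (by exact_mod_cast Nat.pos_of_ne_zero hg0) ?_)
    exact_mod_cast Nat.le_of_dvd (Nat.pos_of_ne_zero hr10) (Nat.gcd_dvd_left _ _)
  have h6 : Real.log (Real.log ((s₁ * s₂ : ℕ) : ℝ)) ≤
      Real.log 2 + (Real.log (Real.log r₁) + Real.log (Real.log r₂)) := by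
    obtain ⟨l31, l32⟩ := logs (hM.three hz2)
    rw [← Real.log_mul (by linarith) (by linarith), ← Real.log_mul (by norm_num)
      (mul_ne_zero (by linarith) (by linarith))]
    refine Real.log_le_log (by linarith) ?_
    have h7 : Real.log ((s₁ * s₂ : ℕ) : ℝ) ≤ Real.log r₁ + Real.log r₂ := by
      rw [← Real.log_mul (by exact_mod_cast hr10) (by exact_mod_cast hr20)]
      refine Real.log_le_log (by exact_mod_cast Nat.pos_of_ne_zero (mul_ne_zero hs10 hs20)) ?_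
      have h8 : s₁ * s₂ ≤ r₁ * r₂ := Nat.mul_le_mul
        (Nat.le_of_dvd (Nat.pos_of_ne_zero hr10) (Dvd.intro_left g hs₁.symm))
        (Nat.le_of_dvd (Nat.pos_of_ne_zero hr20) (Dvd.intro_left g hs₂.symm))
      exact_mod_cast h8
    nlinarith
  have h7 : A * Real.log (Real.log ((s₁ * s₂ : ℕ) : ℝ)) ≤
      A * (Real.log 2 + (Real.log (Real.log r₁) + Real.log (Real.log r₂))) :=
    mul_le_mul_of_nonneg_left h6 hA
  have hn0 : (0 : ℝ) ≤ n := Nat.cast_nonneg n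
  have h8 : 0 ≤ (n : ℝ) * Real.log (Real.log r₂) := mul_nonneg hn0 l22
  nlinarith

/-- **Repulsion** -/
lemma repulsion (K : Type) [Field K] [NumberField K] : ∃ (D : ℝ) (z₀ : ℕ), 0 ≤ D ∧ 2 ≤ z₀ ∧
    ∀ z : ℕ, z₀ ≤ z → ∃ C : ℝ, 0 ≤ C ∧ ∀ (t : Bool) (r₁ r₂ y : ℕ), Md z r₁ → Md z r₂ →
      r₁ ≠ r₂ → z < y →
      -Real.log (Real.log y) - D * (Real.log (Real.log r₁) + Real.log (Real.log r₂)) - C ≤
        ∑ p ∈ PS z y, hK K p * ch t r₁ p / (p : ℝ) + ∑ p ∈ PS z y, hK K p * ch t r₂ p / (p : ℝ) := by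
  obtain ⟨A, z₀, hA, hz₀, h⟩ := upper_mul K
  obtain ⟨C1, hC1⟩ := mertens_up K
  refine ⟨A, z₀, hA, hz₀, fun z hz => ?_⟩
  obtain ⟨C, hC⟩ := h z hz
  refine ⟨|C| + |C1|, by positivity, fun t r₁ r₂ y h1 h2 hne hzy => ?_⟩
  have h3 := hC t r₁ r₂ y h1 h2 hne hzy
  have h4 := hC1 z y hzy (by omega)
  have h5 : 0 ≤ ∑ p ∈ PS z y, hK K p * ((1 + ch t r₁ p) * (1 + ch t r₂ p)) / (p : ℝ) := by
    refine Finset.sum_nonneg fun p _ => ?_
    have e1 := (abs_le.1 (ch_abs t r₁ p)).1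
    have e2 := (abs_le.1 (ch_abs t r₂ p)).1
    refine div_nonneg (mul_nonneg (hK_nonneg K p) (mul_nonneg (by linarith) (by linarith)))
      (Nat.cast_nonneg p)
  have h6 : ∑ p ∈ PS z y, hK K p * ((1 + ch t r₁ p) * (1 + ch t r₂ p)) / (p : ℝ) =
      ∑ p ∈ PS z y, hK K p / (p : ℝ) + (∑ p ∈ PS z y, hK K p * ch t r₁ p / (p : ℝ) +
        ∑ p ∈ PS z y, hK K p * ch t r₂ p / (p : ℝ)) +
        ∑ p ∈ PS z y, hK K p * (ch t r₁ p * ch t r₂ p) / (p : ℝ) := by
    rw [← Finset.sum_add_distrib, ← Finset.sum_add_distrib, ← Finset.sum_add_distrib]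
    refine Finset.sum_congr rfl fun p _ => ?_
    ring
  rw [h6] at h5
  have h7 := le_abs_self C
  have h8 := le_abs_self C1
  linarith

end Pool.Agent.L7h78.RP
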