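import Pool.Agent.L7h19.RP.Stm
import Pool.Agent.L7h78.RP.Chr
import Pool.Agent.Y773.HK.Eul
import Pool.Agent.H474R2.PG.HomsLower

/-! # Real characters of the norm over the primes of degree one of a number field -/

set_option autoImplicit false
set_option linter.unusedSectionVars false

open NumberField Complex Filter Topology IsDedekindDomain

namespace Pool.Agent.Y773.G.R78

open Pool.Agent.H921R2.TatePole (kL kL_exp kL_log nm R R_le below deg deg_two_bound W Lam w_nonneg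
  w_summable bddmul_summable W_sub_Lam_bdd CK nm_eq hc R_eq_hc W_nonneg)
open Pool.Agent.H474R2.PG (PR P1_floor)

section
variable {K : Type} [Field K] [NumberField K]

/-- the prime ideals as points of the spectrum -/
noncomputable def eqv (K : Type) [Field K] [NumberField K] :
    HeightOneSpectrum (𝓞 K) ≃ {𝔭 : Ideal (𝓞 K) // Prime 𝔭} where
  toFun v := ⟨v.asIdeal, v.prime⟩
  invFun 𝔭 := ⟨𝔭.1, Ideal.isPrime_of_prime 𝔭.2, 𝔭.2.ne_zero⟩
  left_inv _ := rfl
  right_inv _ := rfl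

lemma LI_eq_kL {η : Ideal (𝓞 K) →*₀ ℂ} (hη : ∀ 𝔞, ‖η 𝔞‖ ≤ 1) {s : ℂ} (hs : 1 < s.re) :
    LI η s = kL (J := Unit) (fun v _ => η v.asIdeal) s := by
  rw [kL_exp (fun v _ => hη v.asIdeal) hs, Pool.Agent.Y772.DK.LI_eq_exp η hη hs,
    ← (hasSum_log hη hs).tsum_eq, ← (eqv K).tsum_eq]
  congr 1
  refine tsum_congr fun v => ?_
  simp only [Finset.univ_unique, Finset.sum_singleton]
  rfl

/-- from the L-function to the primes of degree one -/
lemma sum_primes_le (K : Type) [Field K] [NumberField K] : ∃ C : ℝ, ∀ η : Ideal (𝓞 K) →*₀ ℂ,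
    (∀ 𝔞, ‖η 𝔞‖ ≤ 1) → ∀ f : ℕ → ℝ,
    (∀ (p : Nat.Primes) (𝔭 : Ideal (𝓞 K)), Ideal.absNorm 𝔭 = (p : ℕ) → η 𝔭 = (f p : ℂ)) →
    ∀ x : ℝ, 1 < x →
      LI η (x : ℂ) ≠ 0 ∧
      ∑' p : Nat.Primes, ((R K p : ℝ) * f p) * Pool.Agent.H921R2.TatePole.w x p ≤
        Real.log ‖LI η (x : ℂ)‖ + C := by
  classical
  refine ⟨(Fintype.card Unit : ℝ) * CK K +
    1 * (Module.finrank ℚ K : ℝ) * Pool.Agent.H921R2.TatePole.C0, fun η hη f hf x hx => ?_⟩
  have hs : (1 : ℝ) < ((x : ℂ)).re := by rwa [Complex.ofReal_re]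
  rw [LI_eq_kL hη hs]
  obtain ⟨h0, h1⟩ := kL_log (K := K) (J := Unit) (c := fun v _ => η v.asIdeal)
    (fun v _ => hη v.asIdeal) hx
  refine ⟨h0, ?_⟩
  have h2 := deg_two_bound (K := K) hx (g := fun v => (η v.asIdeal).re) (C := 1)
    (fun v => (Complex.abs_re_le_norm _).trans (hη _))
  have h3 : ∀ p : Nat.Primes,
      (∑ v : {v : HeightOneSpectrum (𝓞 K) // below v = p},
        if deg v.1 = 1 then (η v.1.asIdeal).re else 0) = (R K p : ℝ) * f p := by
    intro p
    unfold R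
    rw [Finset.card_filter]
    push_cast
    rw [Finset.sum_mul]
    refine Finset.sum_congr rfl fun v _ => ?_
    split_ifs with hv
    · rw [one_mul]
      have h4 : Ideal.absNorm v.1.asIdeal = (p : ℕ) := by
        have h5 := (nm_eq v.1).1
        rw [hv, pow_one, v.2] at h5
        exact h5
      rw [hf p _ h4, Complex.ofReal_re]
    · rw [zero_mul]
  simp_rw [h3] at h2
  simp only [Finset.univ_unique, Finset.sum_singleton] at h1
  rw [abs_le] at h1 h2
  linarith [h1.1, h2.1]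

end

lemma W_anti {x y : ℝ} (hx : 1 < x) (hxy : x ≤ y) : W y ≤ W x := by
  refine Summable.tsum_le_tsum (fun p => ?_) (w_summable (by linarith)) (w_summable hx)
  have hp1 : (1 : ℝ) ≤ ((p : ℕ) : ℝ) := by exact_mod_cast p.2.one_lt.le
  exact Real.rpow_le_rpow_of_exponent_le hp1 (by linarith)

/-- truncation of a sum over the primes -/
lemma trunc : ∃ C : ℝ, 0 ≤ C ∧ ∀ (f : ℕ → ℝ) (B : ℝ), 0 ≤ B →
    (∀ p : Nat.Primes, |f p| ≤ B) → ∀ y : ℝ, 3 ≤ y →
    ∑ p ∈ PR y, f p / (p : ℝ) ≤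
      ∑' p : Nat.Primes, f p * Pool.Agent.H921R2.TatePole.w (1 + 1 / Real.log y) p + B * C := by
  obtain ⟨CW, hCW⟩ := W_sub_Lam_bdd
  obtain ⟨M1, hM1⟩ := Pool.Agent.Helper256.KM.mertens_log
  obtain ⟨M2, hM2⟩ := Pool.Agent.Helper256.KM.mertens_inv
  have hM10 : 0 ≤ M1 := (abs_nonneg _).trans (hM1 1 le_rfl)
  have hM20 : 0 ≤ M2 := (abs_nonneg _).trans (hM2 3 le_rfl)
  obtain ⟨u, hu1, hu⟩ := mem_nhdsGT_iff_exists_Ioo_subset.1 hCW
  simp only [Set.mem_Ioi] at hu1
  have hu0 : 0 < u - 1 := by linarith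
  set T : ℝ := |CW| + M1 + M2 + 1 + Real.log 3 with hT
  have hlog3 : 0 ≤ Real.log 3 := Real.log_nonneg (by norm_num)
  have hT0 : 0 ≤ T := by positivity
  have hWu := W_nonneg u
  refine ⟨T + (1 + M1) + Real.exp (1 / (u - 1)) + W u, by positivity,
    fun f B hB hf y hy => ?_⟩
  have hlog1 : 1 ≤ Real.log y := by
    have h1 : Real.exp 1 ≤ y := by
      have := Real.exp_one_lt_d9
      linarith
    have := Real.log_le_log (Real.exp_pos 1) h1
    rwa [Real.log_exp] at this
  have hlog0 : 0 < Real.log y := by linarith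
  set x : ℝ := 1 + 1 / Real.log y with hx
  have hx1 : 1 < x := by rw [hx]; linarith [show (0 : ℝ) < 1 / Real.log y by positivity]
  have hwsum := w_summable hx1
  have hfsum : Summable (fun p : Nat.Primes => f p * Pool.Agent.H921R2.TatePole.w x p) :=
    bddmul_summable hx1 hf
  obtain ⟨hN3, hNlow, hNlog⟩ := P1_floor hy
  set N := ⌊y⌋₊ with hNdef
  set s : Finset Nat.Primes := Finset.subtype Nat.Prime (Finset.Icc 1 N) with hs
  -- transfer of sums
  have htrans : ∀ f : ℕ → ℝ, ∑ p ∈ s, f p = ∑ p ∈ PR y, f p := by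
    intro f
    exact Finset.sum_subtype_eq_sum_filter (s := Finset.Icc 1 N) (p := Nat.Prime) f
  have hexp0 := Real.exp_pos (1 / (u - 1))
  by_cases hsm : Real.log y ≤ 1 / (u - 1)
  · -- small `y`
    have hxu : u ≤ x := by
      have h1 : u - 1 ≤ 1 / Real.log y := by
        rw [le_div_iff₀ hlog0]
        rw [le_div_iff₀ hu0] at hsm
        linarith
      rw [hx]; linarith
    have h1 : ∑ p ∈ PR y, f p / (p : ℝ) ≤ B * Real.exp (1 / (u - 1)) := by
      have h2 : ∀ p ∈ PR y, f p / (p : ℝ) ≤ B := by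
        intro p hp
        unfold PR at hp
        rw [Finset.mem_filter] at hp
        have hp1 : (1 : ℝ) ≤ p := by exact_mod_cast hp.2.one_lt.le
        have h3 := (le_abs_self _).trans (hf ⟨p, hp.2⟩)
        rw [div_le_iff₀ (by linarith)]
        have h4 : f p ≤ B := h3
        nlinarith
      have h3 := Finset.sum_le_card_nsmul _ _ _ h2
      rw [nsmul_eq_mul] at h3
      have h4 : ((PR y).card : ℝ) ≤ Real.exp (1 / (u - 1)) := by
        have h5 : (PR y).card ≤ N := by
          unfold PR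
          refine (Finset.card_filter_le _ _).trans ?_
          rw [Nat.card_Icc]
          omega
        have h6 : (N : ℝ) ≤ y := Nat.floor_le (by linarith)
        have h7 : y ≤ Real.exp (1 / (u - 1)) := by
          rw [← Real.log_le_iff_le_exp (by linarith)]
          exact hsm
        have h8 : ((PR y).card : ℝ) ≤ N := by exact_mod_cast h5
        linarith
      nlinarith
    have h2 : -(B * W u) ≤ ∑' p : Nat.Primes, f p * Pool.Agent.H921R2.TatePole.w x p := by
      have h3 : -(B * W x) ≤ ∑' p : Nat.Primes, f p * Pool.Agent.H921R2.TatePole.w x p := by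
        have e1 : -(B * W x) = ∑' p : Nat.Primes, (-B) * Pool.Agent.H921R2.TatePole.w x p := by
          rw [tsum_mul_left]
          change -(B * ∑' p : Nat.Primes, Pool.Agent.H921R2.TatePole.w x p) = _
          ring
        rw [e1]
        refine Summable.tsum_le_tsum (fun p => ?_) (hwsum.mul_left _) hfsum
        have h4 := (abs_le.1 (hf p)).1
        have h5 := w_nonneg x p
        nlinarith
      have h4 := W_anti hu1 hxu
      nlinarith
    have h3 : 0 ≤ B * (T + (1 + M1)) := by positivity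
    nlinarith
  push Not at hsm
  have hxu : x < u := by
    have : 1 / Real.log y < u - 1 := by
      rw [div_lt_iff₀ hlog0]
      rw [div_lt_iff₀ hu0] at hsm
      linarith
    rw [hx]; linarith
  have hB' := hu ⟨hx1, hxu⟩
  simp only [Set.mem_ofPred_eq] at hB'
  rw [abs_le] at hB'
  have hLam : Lam x = Real.log (Real.log y) := by
    unfold Lam
    rw [hx]
    congr 1
    field_simp
    ring
  rw [hLam] at hB'
  have hwdef : ∀ p : Nat.Primes, Pool.Agent.H921R2.TatePole.w x p = ((p : ℕ) : ℝ) ^ (-x) :=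
    fun p => rfl
  have h2 : ∀ p ∈ PR y, (1 : ℝ) / p - (Real.log p / p) / Real.log y ≤ (p : ℝ) ^ (-x) ∧
      (p : ℝ) ^ (-x) ≤ 1 / p := by
    intro p hp
    unfold PR at hp
    rw [Finset.mem_filter] at hp
    have hp0 : (0 : ℝ) < p := by exact_mod_cast hp.2.pos
    have hp1 : (1 : ℝ) ≤ p := by exact_mod_cast hp.2.one_lt.le
    have e1 : (p : ℝ) ^ (-x) = (1 / p) * Real.exp (-(Real.log p / Real.log y)) := by
      rw [Real.rpow_def_of_pos hp0, hx,
        show Real.log p * -(1 + 1 / Real.log y) = -Real.log p + -(Real.log p / Real.log y) by ring,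
        Real.exp_add, Real.exp_neg, Real.exp_log hp0]
      simp
    rw [e1]
    have h3 := Real.add_one_le_exp (-(Real.log p / Real.log y))
    have h4 : (0 : ℝ) ≤ 1 / p := by positivity
    have h5 := mul_le_mul_of_nonneg_left h3 h4
    constructor
    · calc (1 : ℝ) / p - (Real.log p / p) / Real.log y
          = 1 / p * (-(Real.log p / Real.log y) + 1) := by ring
        _ ≤ _ := h5
    · have h6 : Real.exp (-(Real.log p / Real.log y)) ≤ 1 := by
        refine Real.exp_le_one_iff.mpr ?_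
        have : 0 ≤ Real.log p / Real.log y := div_nonneg (Real.log_nonneg hp1) hlog0.le
        linarith
      calc _ ≤ 1 / (p : ℝ) * 1 := mul_le_mul_of_nonneg_left h6 h4
        _ = _ := mul_one _
  have hlogsum : (∑ p ∈ PR y, Real.log p / p) / Real.log y ≤ 1 + M1 := by
    have h4 := (abs_le.1 (hM1 N (by omega))).2
    have e4 : ∑ p ∈ PR y, Real.log p / p = ∑ p ∈ (Finset.Icc 1 N).filter Nat.Prime, Real.log p / p :=
      rfl
    rw [← e4] at h4
    rw [div_le_iff₀ hlog0]
    nlinarith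
  -- (a)
  have ha : Real.log (Real.log y) - (M1 + M2 + 1 + Real.log 3) ≤
      ∑ p ∈ s, Pool.Agent.H921R2.TatePole.w x p := by
    have h1 : ∑ p ∈ s, Pool.Agent.H921R2.TatePole.w x p = ∑ p ∈ PR y, (p : ℝ) ^ (-x) :=
      htrans (fun p => (p : ℝ) ^ (-x))
    rw [h1]
    have h3 := Finset.sum_le_sum fun p hp => (h2 p hp).1
    rw [Finset.sum_sub_distrib, ← Finset.sum_div] at h3
    have h5 := (abs_le.1 (hM2 N hN3)).1
    have e5 : ∑ p ∈ PR y, (1 : ℝ) / p = ∑ p ∈ (Finset.Icc 1 N).filter Nat.Prime, (1 : ℝ) / p := rfl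
    rw [← e5] at h5
    linarith
  -- (b)
  have hb : W x - ∑ p ∈ s, Pool.Agent.H921R2.TatePole.w x p ≤ T := by
    have := le_abs_self CW
    rw [hT]; linarith [hB'.2]
  -- (c)
  have hcc : ∑ p ∈ s, f p * Pool.Agent.H921R2.TatePole.w x p ≤
      ∑' p : Nat.Primes, f p * Pool.Agent.H921R2.TatePole.w x p + B * T := by
    have e1 : ∑' p : Nat.Primes, f p * Pool.Agent.H921R2.TatePole.w x p + B * W x =
        ∑' p : Nat.Primes, (f p * Pool.Agent.H921R2.TatePole.w x p +
          B * Pool.Agent.H921R2.TatePole.w x p) := by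
      rw [Summable.tsum_add hfsum (hwsum.mul_left B), tsum_mul_left]
      rfl
    have e2 : ∑ p ∈ s, f p * Pool.Agent.H921R2.TatePole.w x p +
        B * ∑ p ∈ s, Pool.Agent.H921R2.TatePole.w x p =
      ∑ p ∈ s, (f p * Pool.Agent.H921R2.TatePole.w x p +
          B * Pool.Agent.H921R2.TatePole.w x p) := by
      rw [Finset.sum_add_distrib, Finset.mul_sum]
    have h3 : ∑ p ∈ s, (f p * Pool.Agent.H921R2.TatePole.w x p +
          B * Pool.Agent.H921R2.TatePole.w x p) ≤ ∑' p : Nat.Primes,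
          (f p * Pool.Agent.H921R2.TatePole.w x p + B * Pool.Agent.H921R2.TatePole.w x p) := by
      refine Summable.sum_le_tsum s (fun p _ => ?_) (hfsum.add (hwsum.mul_left B))
      have h4 := (abs_le.1 (hf p)).1
      have h5 := w_nonneg x p
      nlinarith
    rw [← e1, ← e2] at h3
    have h6 := mul_le_mul_of_nonneg_left hb hB
    linarith
  -- (d)
  have hd : ∑ p ∈ PR y, f p / (p : ℝ) ≤
      ∑ p ∈ s, f p * Pool.Agent.H921R2.TatePole.w x p + B * (1 + M1) := by
    have e1 : ∑ p ∈ s, f p * Pool.Agent.H921R2.TatePole.w x p =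
        ∑ p ∈ PR y, f p * (p : ℝ) ^ (-x) := htrans (fun p => f p * (p : ℝ) ^ (-x))
    rw [e1]
    have h3 : ∀ p ∈ PR y, f p / (p : ℝ) ≤ f p * (p : ℝ) ^ (-x) +
        B * ((Real.log p / p) / Real.log y) := by
      intro p hp
      obtain ⟨h4, h5⟩ := h2 p hp
      unfold PR at hp
      rw [Finset.mem_filter] at hp
      have h6 := (le_abs_self _).trans (hf ⟨p, hp.2⟩)
      have h7 : f p ≤ B := h6
      have h8 : f p / (p : ℝ) = f p * (p : ℝ) ^ (-x) + f p * (1 / p - (p : ℝ) ^ (-x)) := by ring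
      rw [h8]
      have h9 : f p * (1 / p - (p : ℝ) ^ (-x)) ≤ B * (1 / p - (p : ℝ) ^ (-x)) :=
        mul_le_mul_of_nonneg_right h7 (by linarith)
      have h10 : B * (1 / p - (p : ℝ) ^ (-x)) ≤ B * ((Real.log p / p) / Real.log y) :=
        mul_le_mul_of_nonneg_left (by linarith) hB
      linarith
    have h4 := Finset.sum_le_sum h3
    rw [Finset.sum_add_distrib, ← Finset.mul_sum, ← Finset.sum_div] at h4
    have h5 := mul_le_mul_of_nonneg_left hlogsum hB
    linarith
  have h7 : 0 ≤ B * (Real.exp (1 / (u - 1)) + W u) := by positivity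
  nlinarith

end Pool.Agent.Y773.G.R78

namespace Pool.Agent.L7h78.RP

open Pool.Agent.Y773 Pool.Agent.Y773.G.R78
open Pool.Agent.W262.RK (Jr)
open Pool.Agent.H474R2.PG (PR)
open Pool.Agent.H921R2.TatePole (R R_le hc R_eq_hc)

/-- **StH** -/
theorem stH : Pool.Agent.L7h19.RP.StH := by
  intro K _ _ q hq
  obtain ⟨C1, hC1⟩ := sum_primes_le K
  obtain ⟨C2, hC2, hL⟩ := norm_LI_log K
  obtain ⟨C3, hC3, hT⟩ := trunc
  set n : ℕ := Module.finrank ℚ K with hn
  have hlogq : 0 ≤ Real.log q := Real.log_natCast_nonneg _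
  refine ⟨1, Real.log (C2 * (1 + n * Real.log q + n)) + C1 + n * C3,
    q + (discr K).natAbs + 2, fun ψ r hr hsf hz y hy => ?_⟩
  have hr0 : r ≠ 0 := by omega
  have hd0 : discr K ≠ 0 := discr_ne_zero K
  have hodd : Odd r := by
    rw [← Nat.not_even_iff_odd]
    intro h
    have := hz 2 Nat.prime_two (even_iff_two_dvd.mp h)
    omega
  have hr3 : 3 ≤ r := by
    rcases hodd with ⟨k, hk⟩
    omega
  have hcop : Nat.Coprime q r := by
    refine Nat.Coprime.symm (Nat.Coprime.symm ?_)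
    by_contra h
    obtain ⟨p, hp, h1, h2⟩ := Nat.Prime.not_coprime_iff_dvd.mp h
    have h3 := hz p hp h2
    have h4 := Nat.le_of_dvd hq h1
    omega
  have hdisc : IsCoprime (r : ℤ) (discr K) := by
    rw [Int.isCoprime_iff_gcd_eq_one]
    by_contra h
    have h' : ¬ Nat.Coprime r (discr K).natAbs := h
    obtain ⟨p, hp, h1, h2⟩ := Nat.Prime.not_coprime_iff_dvd.mp h'
    have h3 := hz p hp h1
    have h4 := Nat.le_of_dvd (Int.natAbs_pos.mpr hd0) h2
    omega
  obtain ⟨ρ, hρ1, hρ2⟩ := H385.jac_char r hodd hsf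
  set ψC : DirichletCharacter ℂ q := ψ.ringHomComp (Int.castRingHom ℂ) with hψC
  set η : Ideal (𝓞 K) →*₀ ℂ := tw (tr K) (H385.pm ψC ρ) with hη
  have hQ1 : 1 < q * r := by nlinarith
  obtain ⟨e, hmod⟩ := modChar (K := K) hQ1 (H385.pm ψC ρ)
  have hnt := nontriv (K := K) hq hr hcop hdisc ψC ρ hρ1
  have hval : ∀ m : ℕ, H385.pm ψC ρ (m : ZMod (q * r)) =
      (((((ψ (m : ZMod q) : ℤ) : ℝ) * Jr (m : ℤ) r) : ℝ) : ℂ) := by
    intro m
    rw [H385.pm_apply, hρ2, hψC, MulChar.ringHomComp_apply]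
    unfold Jr
    push_cast
    rfl
  have hf : ∀ (p : Nat.Primes) (𝔭 : Ideal (𝓞 K)), Ideal.absNorm 𝔭 = (p : ℕ) →
      η 𝔭 = (((fun m : ℕ => ((ψ (m : ZMod q) : ℤ) : ℝ) * Jr (m : ℤ) r) p : ℝ) : ℂ) := by
    intro p 𝔭 h
    have h0 : 𝔭 ≠ 0 := by
      rintro rfl
      rw [Ideal.zero_eq_bot, Ideal.absNorm_bot] at h
      exact p.2.ne_zero h.symm
    rw [hη, tw_ne h0, h, hval]
  set x : ℝ := 1 + 1 / Real.log y with hx
  have hlog1 : 1 ≤ Real.log y := by
    have h1 : Real.exp 1 ≤ y := by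
      have := Real.exp_one_lt_d9
      linarith
    have := Real.log_le_log (Real.exp_pos 1) h1
    rwa [Real.log_exp] at this
  have hlog0 : 0 < Real.log y := by linarith
  have hx1 : 1 < x := by rw [hx]; linarith [show (0 : ℝ) < 1 / Real.log y by positivity]
  have hx2 : x ≤ 2 := by
    have : 1 / Real.log y ≤ 1 := by
      rw [div_le_one hlog0]
      exact hlog1
    rw [hx]; linarith
  obtain ⟨h0, h1⟩ := hC1 η hmod.norm_le_one
    (fun m : ℕ => ((ψ (m : ZMod q) : ℤ) : ℝ) * Jr (m : ℤ) r) hf x hx1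
  have h2 := hL _ e η hmod hnt x hx1 hx2
  -- the truncated sum
  have hψ1 : ∀ m : ℕ, |(((ψ (m : ZMod q) : ℤ) : ℝ) * Jr (m : ℤ) r)| ≤ 1 := by
    intro m
    have h3 := DirichletCharacter.norm_le_one (H385.pm ψC ρ) (m : ZMod (q * r))
    rw [hval m, Complex.norm_real, Real.norm_eq_abs] at h3
    exact h3
  have h3 := hT (fun p => (Nat.card (𝓞 K →+* ZMod p) : ℝ) *
    (((ψ (p : ZMod q) : ℤ) : ℝ) * Jr (p : ℤ) r)) n (Nat.cast_nonneg n) (fun p => by
      rw [abs_mul, Nat.abs_cast]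
      have h4 : (Nat.card (𝓞 K →+* ZMod p) : ℝ) ≤ n := by
        have h5 := R_le (K := K) p
        rw [R_eq_hc] at h5
        unfold hc at h5
        exact_mod_cast h5
      calc _ ≤ (n : ℝ) * 1 := mul_le_mul h4 (hψ1 p) (abs_nonneg _) (Nat.cast_nonneg n)
        _ = n := mul_one _) y hy
  refine h3.trans ?_
  have h4 : ∑' p : Nat.Primes, (Nat.card (𝓞 K →+* ZMod p) : ℝ) *
      (((ψ (p : ZMod q) : ℤ) : ℝ) * Jr (p : ℤ) r) *
        Pool.Agent.H921R2.TatePole.w x p = ∑' p : Nat.Primes, ((R K p : ℝ) *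
        (fun m : ℕ => ((ψ (m : ZMod q) : ℤ) : ℝ) * Jr (m : ℤ) r) p) *
          Pool.Agent.H921R2.TatePole.w x p := by
    refine tsum_congr fun p => ?_
    rw [R_eq_hc]
    rfl
  rw [h4]
  -- the bound of the logarithm
  have hlogr : 1 ≤ Real.log r := by
    have h5 : Real.exp 1 ≤ r := by
      have := Real.exp_one_lt_d9
      have h6 : (3 : ℝ) ≤ r := by exact_mod_cast hr3
      linarith
    have := Real.log_le_log (Real.exp_pos 1) h5
    rwa [Real.log_exp] at this
  have hnorm : Real.log (Ideal.absNorm (Ideal.span {((q * r : ℕ) : 𝓞 K)}) : ℕ) =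
      n * (Real.log q + Real.log r) := by
    have h5 : Ideal.absNorm (Ideal.span {((q * r : ℕ) : 𝓞 K)}) = (q * r) ^ n := by
      rw [Ideal.absNorm_span_natCast, RingOfIntegers.rank]
    rw [h5, Nat.cast_pow, Real.log_pow, Nat.cast_mul, Real.log_mul (by exact_mod_cast hq.ne')
      (by exact_mod_cast hr0)]
  rw [hnorm] at h2
  have hn0 : (0 : ℝ) ≤ n := Nat.cast_nonneg _
  have h5 : C2 * (1 + n * (Real.log q + Real.log r)) ≤
      (C2 * (1 + n * Real.log q + n)) * Real.log r := by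
    rw [mul_assoc]
    refine mul_le_mul_of_nonneg_left ?_ hC2.le
    have h6 : 0 ≤ (n : ℝ) * Real.log q := mul_nonneg hn0 hlogq
    nlinarith
  have h6 : Real.log ‖LI η (x : ℂ)‖ ≤
      Real.log (C2 * (1 + n * Real.log q + n)) + Real.log (Real.log r) := by
    rw [← Real.log_mul (by positivity) (by positivity)]
    exact Real.log_le_log (norm_pos_iff.mpr h0) (h2.trans h5)
  linarith

end Pool.Agent.L7h78.RP
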